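import Mathlib
import Pool.Agent.Work.MP_787500_nt.LA.FDefs

/-!
Parity of Bloch-Kato Selmer groups of conjugate self-dual representations, any residual image: definitions used in the
statement of the theorem. The other definitions are in `PA/ParityDefs.lean`, `GP/FinDefs.lean`, `HP/BKDefs.lean` and
`LA/FDefs.lean`.
-/

set_option autoImplicit false

namespace Pool.Agent.Work.MP_787500_nt.Parity

open Matrix NumberField

section group

variable {G : Type*} [Group G] [TopologicalSpace G] {E : Type*} [NormedField E] {n : ℕ}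

/-- After the twist by a continuous character `χ` that is congruent to 1 modulo the maximal ideal, trivial on `I` and
inverted by `κ`, the representation `ρ` extends to a symplectic representation of the group generated by `G` and an
involution that acts on `G` by `κ`: the involution acts by `C`, and the symplectic form is `b (x, C y)`. The product
of `σ` and the involution acts trivially for all `σ` in `J`. -/
def SymplTwist (I J : Set G) (κ : G → G) (ρ : G →* Matrix (Fin n) (Fin n) E)
    (b : Matrix (Fin n) (Fin n) E) : Prop :=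
  ∃ (χ : G →* E) (C : Matrix (Fin n) (Fin n) E), Continuous χ ∧ (∀ σ ∈ I, χ σ = 1) ∧
    (∀ σ, ‖χ σ - 1‖ < 1 ∧ χ (κ σ) * χ σ = 1) ∧ C * C = 1 ∧ (b * C)ᵀ = -(b * C) ∧
    (∀ σ, χ (κ σ) • (C * ρ (κ σ)) = χ σ • (ρ σ * C)) ∧ ∀ σ ∈ J, χ σ • (ρ σ * C) = 1

/-- One of the following holds. The image of `ρ` is pro-2. `n = 2` and the determinant is congruent to 1 modulo the
maximal ideal. `ρ` is a twist of the restriction of a symplectic representation. The residue field of `E` has two
elements and `ρ` is pro-2 on a normal subgroup of index dividing 6. -/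
def Admissible (I J : Set G) (κ : G → G) (ρ : G →* Matrix (Fin n) (Fin n) E)
    (b : Matrix (Fin n) (Fin n) E) : Prop :=
  ProTwoOn ⊤ ρ ∨ (n = 2 ∧ ∀ σ, ‖(ρ σ).det - 1‖ < 1) ∨ SymplTwist I J κ ρ b ∨
    ((∀ x : E, ‖x‖ ≤ 1 → ‖x‖ < 1 ∨ ‖x - 1‖ < 1) ∧
      ∃ N : Subgroup G, N.Normal ∧ N.index ∣ 6 ∧ ProTwoOn N ρ)

end group

section galois

universe u

/-- the elements `σ` of the Galois group for which `σ ∘ c` belongs to the inertia group at a prime that contains
neither 2 nor an element of `T` -/
def inTc (K : Type u) [Field K] (T : Finset ℕ) (c : AlgebraicClosure K ≃+* AlgebraicClosure K) :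
    Set (AbsGal K) :=
  {σ | ∃ Q : Ideal (𝓞 (AlgebraicClosure K)), Q.IsPrime ∧ (2 : 𝓞 (AlgebraicClosure K)) ∉ Q ∧
    (∀ l ∈ T, (l : 𝓞 (AlgebraicClosure K)) ∉ Q) ∧
    ∀ x y : 𝓞 (AlgebraicClosure K), (y : AlgebraicClosure K) = σ (c x) → y - x ∈ Q}

end galois

end Pool.Agent.Work.MP_787500_nt.Parity
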