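import Mathlib
import Pool.Agent.Work.MP_787500_nt.QS.Defs

/-!
Transport of the global duality hypotheses `HQ` along a bijection of the places and isomorphisms of the local
groups.
-/

set_option autoImplicit false
set_option linter.unusedSectionVars false

namespace Pool.Agent.Work.MP_787500_nt.QF

open Pool.Agent.Work.MP_787500_nt.GP (A0 IsAct d0 d1 d2 tw cup11 cup21 cup12 cup01 cup02 EvPow IsPow)
open Pool.Agent.Work.MP_787500_nt.KR (FSys Sm1 Sm2 IsChar Smooth Z1 Z2 B2 LocH Pair LDual GlobH Mid Sha2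
  IsTr zM z1s b1s C1)
open Pool.Agent.Work.MP_787500_nt.QS (HQ)

universe v

section loc

variable {X X' G : Type*} [Group X] [Group X'] [Group G]

/-- isomorphic local data -/
structure LIso (T : FSys X) (T' : FSys X') (j : X →* G) (j' : X' →* G) (iv : (X → X → A0) → A0)
    (iv' : (X' → X' → A0) → A0) (e : X' ≃* X) : Prop where
  sys : ∀ W : Subgroup X, T'.mem (W.comap e.toMonoidHom) ↔ T.mem W
  j : ∀ d, j (e d) = j' d
  inv : ∀ f : X → X → A0, iv' (fun a b => f (e a) (e b)) = iv f

variable {T : FSys X} {T' : FSys X'} {j : X →* G} {j' : X' →* G} {iv : (X → X → A0) → A0}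
  {iv' : (X' → X' → A0) → A0} {e : X' ≃* X} (h : LIso T T' j j' iv iv' e)

include h

theorem LIso.mem {W' : Subgroup X'} (hW : T'.mem W') : T.mem (W'.comap e.symm.toMonoidHom) := by
  rw [← h.sys]
  have e1 : (W'.comap e.symm.toMonoidHom).comap e.toMonoidHom = W' := by
    ext x
    show e.symm (e x) ∈ W' ↔ x ∈ W'
    rw [e.symm_apply_apply]
  rwa [e1]

theorem LIso.jsymm (d : X) : j' (e.symm d) = j d := by rw [← h.j, e.apply_symm_apply]

theorem LIso.sm1 {A : Type*} {f : X → A} : Sm1 T' (fun d => f (e d)) ↔ Sm1 T f := by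
  constructor
  · rintro ⟨W', hW', h1⟩
    refine ⟨_, h.mem hW', fun g w hw => ?_⟩
    have h2 := h1 (e.symm g) (e.symm w) hw
    dsimp only at h2
    rwa [map_mul, e.apply_symm_apply, e.apply_symm_apply] at h2
  · rintro ⟨W, hW, h1⟩
    exact ⟨_, (h.sys W).2 hW, fun g w hw => by
      beta_reduce
      rw [map_mul]
      exact h1 _ _ hw⟩

theorem LIso.sm2 {A : Type*} {f : X → X → A} : Sm2 T' (fun a b => f (e a) (e b)) ↔ Sm2 T f := by
  constructor
  · rintro ⟨W', hW', h1⟩
    refine ⟨_, h.mem hW', fun g k w hw w' hw' => ?_⟩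
    have h2 := h1 (e.symm g) (e.symm k) (e.symm w) hw (e.symm w') hw'
    dsimp only at h2
    rwa [map_mul, map_mul, e.apply_symm_apply, e.apply_symm_apply, e.apply_symm_apply,
      e.apply_symm_apply] at h2
  · rintro ⟨W, hW, h1⟩
    exact ⟨_, (h.sys W).2 hW, fun g k w hw w' hw' => by
      beta_reduce
      rw [map_mul, map_mul]
      exact h1 _ _ _ hw _ hw'⟩

theorem LIso.z1 {M : Type*} [AddCommGroup M] {ρ : G → M → M} {x : X → M} :
    Z1 T' (fun d => ρ (j' d)) (fun d => x (e d)) ↔ Z1 T (fun d => ρ (j d)) x := by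
  unfold Z1
  rw [h.sm1]
  refine and_congr_right fun _ => ?_
  constructor
  · intro h1 a b
    have h2 := h1 (e.symm a) (e.symm b)
    dsimp only at h2
    rwa [map_mul, e.apply_symm_apply, e.apply_symm_apply, h.jsymm] at h2
  · intro h1 a b
    dsimp only at h1 ⊢
    rw [map_mul, h1, h.j]

theorem LIso.z2 {M : Type*} [AddCommGroup M] {ρ : G → M → M} {f : X → X → M} :
    Z2 T' (fun d => ρ (j' d)) (fun a b => f (e a) (e b)) ↔ Z2 T (fun d => ρ (j d)) f := by
  unfold Z2
  rw [h.sm2]
  refine and_congr_right fun _ => ?_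
  constructor
  · intro h1 a b c
    have h2 := h1 (e.symm a) (e.symm b) (e.symm c)
    simp only [d2, map_mul, e.apply_symm_apply, h.jsymm] at h2
    exact h2
  · intro h1 a b c
    have h2 := h1 (e a) (e b) (e c)
    simp only [d2, map_mul, h.j] at h2 ⊢
    exact h2

theorem LIso.b2 {M : Type*} [AddCommGroup M] {ρ : G → M → M} {f : X → X → M} :
    B2 T' (fun d => ρ (j' d)) (fun a b => f (e a) (e b)) ↔ B2 T (fun d => ρ (j d)) f := by
  constructor
  · rintro ⟨x, hx, h1⟩
    have e1 : x = fun d => (fun d => x (e.symm d)) (e d) := by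
      funext d
      dsimp only
      rw [e.symm_apply_apply]
    rw [e1] at hx
    refine ⟨fun d => x (e.symm d), h.sm1.1 hx, ?_⟩
    funext a b
    have h2 := congrFun (congrFun h1 (e.symm a)) (e.symm b)
    simp only [d1, e.apply_symm_apply, h.jsymm] at h2 ⊢
    rw [h2, map_mul]
  · rintro ⟨x, hx, rfl⟩
    refine ⟨fun d => x (e d), h.sm1.2 hx, ?_⟩
    funext a b
    simp only [d1, map_mul, h.j]

theorem LIso.locH {χ : G → ℤ_[2]} (H : LocH T (fun d => χ (j d)) iv) :
    LocH T' (fun d => χ (j' d)) iv' := by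
  have htw : ∀ f : X' → X' → A0, Z2 T' (tw fun d => χ (j' d)) f →
      Z2 T (tw fun d => χ (j d)) (fun a b => f (e.symm a) (e.symm b)) := by
    intro f hf
    have h1 := (h.z2 (ρ := tw χ) (f := fun a b => f (e.symm a) (e.symm b))).1 (by
      simp only [e.symm_apply_apply]
      exact hf)
    exact h1
  have hiv : ∀ f : X' → X' → A0, iv' f = iv fun a b => f (e.symm a) (e.symm b) := by
    intro f
    rw [← h.inv]
    simp only [e.symm_apply_apply]
  refine ⟨⟨?_, fun a b => ?_, fun n => ?_, fun g => ?_⟩, fun f f' hf hf' => ?_, fun z hz => ?_⟩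
  · have h1 := H.char.one
    show χ (j' 1) = 1
    rw [map_one]
    rwa [map_one] at h1
  · show χ (j' (a * b)) = χ (j' a) * χ (j' b)
    have h1 := H.char.mul (e a) (e b)
    rwa [← map_mul, h.j, h.j, h.j] at h1
  · obtain ⟨W, hW, h1⟩ := H.char.cont n
    refine ⟨_, (h.sys W).2 hW, fun g w hw => ?_⟩
    have h2 := h1 (e g) (e w) hw
    dsimp only at h2
    rwa [← map_mul, h.j, h.j] at h2
  · have h1 := H.char.odd (e g)
    rwa [h.j] at h1
  · rw [hiv, hiv f, hiv f']
    exact H.add _ _ (htw f hf) (htw f' hf')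
  · rw [hiv]
    have e1 : z = fun d => (fun d => z (e.symm d)) (e d) := by
      funext d
      dsimp only
      rw [e.symm_apply_apply]
    rw [e1] at hz
    have h1 := H.cob _ (h.sm1 (f := fun d => z (e.symm d)).1 hz)
    have e2 : (fun a b => d1 (tw fun d => χ (j' d)) z (e.symm a) (e.symm b)) =
        d1 (tw fun d => χ (j d)) (fun d => z (e.symm d)) := by
      funext a b
      simp only [d1, tw, h.jsymm, map_mul]
    rw [e2]
    exact h1

theorem LIso.ldual {M M' : Type*} [AddCommGroup M] [AddCommGroup M'] {ρ : G → M → M}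
    {ρ' : G → M' → M'} {B : M →+ M' →+ A0}
    (H : LDual T iv (fun d => ρ (j d)) (fun d => ρ' (j d)) B) :
    LDual T' iv' (fun d => ρ (j' d)) (fun d => ρ' (j' d)) B := by
  have hx : ∀ {N : Type _} [AddCommGroup N] {σ : G → N → N} (x : X' → N),
      Z1 T' (fun d => σ (j' d)) x → Z1 T (fun d => σ (j d)) (fun d => x (e.symm d)) := by
    intro N _ σ x hx
    have e1 : x = fun d => (fun d => x (e.symm d)) (e d) := by
      funext d
      dsimp only
      rw [e.symm_apply_apply]
    rw [e1] at hx
    exact h.z1.1 hx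
  have hx' : ∀ {N : Type _} [AddCommGroup N] {σ : G → N → N} (x : X' → N),
      Z1 T' (fun d => σ (j' d)) x → Z1 T (fun d => σ (j d)) (fun d => x (e.symm d)) := by
    intro N _ σ x hx
    have e1 : x = fun d => (fun d => x (e.symm d)) (e d) := by
      funext d
      dsimp only
      rw [e.symm_apply_apply]
    rw [e1] at hx
    exact h.z1.1 hx
  have hcup : ∀ (x : X → M) (y : X → M'), iv' (cup11 (fun d => ρ' (j' d)) B (fun d => x (e d))
      (fun d => y (e d))) = iv (cup11 (fun d => ρ' (j d)) B x y) := by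
    intro x y
    rw [← h.inv]
    congr 1
    funext a b
    simp only [cup11, h.j]
  refine ⟨?_, ?_, fun x h1 h2 => ?_, fun y h1 h2 => ?_, fun F h1 h2 => ?_⟩
  · have := H.fin
    exact Finite.of_injective (fun x : {x : X' → M // Z1 T' (fun d => ρ (j' d)) x} =>
      (⟨fun d => x.1 (e.symm d), hx x.1 x.2⟩ : {x : X → M // Z1 T (fun d => ρ (j d)) x}))
      fun x y hxy => by
        apply Subtype.ext
        funext d
        have h3 := congrFun (congrArg Subtype.val hxy) (e d)
        simpa using h3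
  · have := H.fin'
    exact Finite.of_injective (fun x : {x : X' → M' // Z1 T' (fun d => ρ' (j' d)) x} =>
      (⟨fun d => x.1 (e.symm d), hx' x.1 x.2⟩ : {x : X → M' // Z1 T (fun d => ρ' (j d)) x}))
      fun x y hxy => by
        apply Subtype.ext
        funext d
        have h3 := congrFun (congrArg Subtype.val hxy) (e d)
        simpa using h3
  · obtain ⟨m, hm⟩ := H.one _ (hx x h1) fun y hy => by
      rw [← hcup]
      simp only [e.symm_apply_apply]
      exact h2 _ (h.z1.2 hy)
    refine ⟨m, funext fun d => ?_⟩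
    have h3 := congrFun hm (e d)
    simpa [d0, h.j] using h3
  · obtain ⟨m, hm⟩ := H.one' _ (hx' y h1) fun x hx => by
      rw [← hcup]
      simp only [e.symm_apply_apply]
      exact h2 _ (h.z1.2 hx)
    refine ⟨m, funext fun d => ?_⟩
    have h3 := congrFun hm (e d)
    simpa [d0, h.j] using h3
  · have e1 : F = fun a b => (fun a b => F (e.symm a) (e.symm b)) (e a) (e b) := by
      funext a b
      dsimp only
      rw [e.symm_apply_apply, e.symm_apply_apply]
    rw [e1] at h1 ⊢
    refine h.b2.2 (H.two _ (h.z2 (f := fun a b => F (e.symm a) (e.symm b)).1 h1) fun z hz => ?_)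
    have h3 := h2 z (fun d => by
      have h4 := hz (e d)
      rwa [h.j] at h4)
    rw [← h3, ← h.inv]
    congr 1
    funext a b
    simp only [cup02, e.symm_apply_apply]

end loc

section fam

variable {G : Type*} [Group G] {S : FSys G} {I I' : Type*} [Fintype I] [Fintype I'] {D : I → Type*}
  [∀ i, Group (D i)] {D' : I' → Type*} [∀ i, Group (D' i)] {SD : ∀ i, FSys (D i)}
  {SD' : ∀ i, FSys (D' i)} {j : ∀ i, D i →* G} {j' : ∀ i, D' i →* G} {χ : G → ℤ_[2]}
  {inv : ∀ i, (D i → D i → A0) → A0} {inv' : ∀ i, (D' i → D' i → A0) → A0} {σ : I' ≃ I}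
  {e : ∀ i', D' i' ≃* D (σ i')}

/-- transport of families of functions -/
theorem exists_fam {A : I → Type*} (f : ∀ i', A (σ i')) : ∃ f' : ∀ i, A i, ∀ i', f' (σ i') = f i' :=
  ⟨Equiv.piCongrLeft A σ f, fun i' => Equiv.piCongrLeft_apply_apply A σ f i'⟩

/-- transport of local cochains, as a homomorphism -/
noncomputable def trF (σ : I' ≃ I) (e : ∀ i', D' i' ≃* D (σ i')) :
    (∀ i', D' i' → D' i' → A0) →+ (∀ i, D i → D i → A0) where
  toFun f := Equiv.piCongrLeft (fun i => D i → D i → A0) σ
    fun i' a b => f i' ((e i').symm a) ((e i').symm b)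
  map_zero' := by
    funext i
    obtain ⟨i', rfl⟩ := σ.surjective i
    rw [Equiv.piCongrLeft_apply_apply]
    rfl
  map_add' f f' := by
    funext i
    obtain ⟨i', rfl⟩ := σ.surjective i
    rw [Pi.add_apply, Equiv.piCongrLeft_apply_apply, Equiv.piCongrLeft_apply_apply,
      Equiv.piCongrLeft_apply_apply]
    rfl

theorem trF_apply (f : ∀ i', D' i' → D' i' → A0) (i' : I') :
    trF σ e f (σ i') = fun a b => f i' ((e i').symm a) ((e i').symm b) :=
  Equiv.piCongrLeft_apply_apply _ _ _ _

/-- the transported trace -/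
noncomputable def trT (σ : I' ≃ I) (e : ∀ i', D' i' ≃* D (σ i'))
    (tr : ((G → G → G → A0) × (∀ i, D i → D i → A0)) →+ A0) :
    ((G → G → G → A0) × (∀ i', D' i' → D' i' → A0)) →+ A0 :=
  tr.comp ((AddMonoidHom.id _).prodMap (trF σ e))

theorem trT_apply (tr : ((G → G → G → A0) × (∀ i, D i → D i → A0)) →+ A0) (b : G → G → G → A0)
    (f : ∀ i', D' i' → D' i' → A0) : trT σ e tr (b, f) = tr (b, trF σ e f) := rfl

theorem hq_trans {tr : ((G → G → G → A0) × (∀ i, D i → D i → A0)) →+ A0}
    (h : ∀ i', LIso (SD (σ i')) (SD' i') (j (σ i')) (j' i') (inv (σ i')) (inv' i') (e i'))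
    (H : HQ.{v} S SD j χ inv tr) : HQ.{v} S SD' j' χ inv' (trT σ e tr) where
  glob :=
    { char := H.glob.char
      jsm := fun i' W hW => by
        obtain ⟨W', hW', h1⟩ := H.glob.jsm (σ i') W hW
        refine ⟨_, ((h i').sys W').2 hW', fun w hw => ?_⟩
        rw [← (h i').j]
        exact h1 _ hw
      loc := fun i' => (h i').locH (H.glob.loc (σ i'))
      recip := fun f hf => by
        have h1 := H.glob.recip f hf
        rw [← σ.sum_comp] at h1
        rw [← h1]
        refine Finset.sum_congr rfl fun i' _ => ?_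
        rw [← (h i').inv]
        congr 1
        funext a b
        rw [(h i').j, (h i').j] }
  istr b c hb hc := by
    rw [trT_apply]
    have h1 : ∀ i' (a b' : D (σ i')), trF σ e c (σ i') a b' =
        c i' ((e i').symm a) ((e i').symm b') := fun i' a b' => by rw [trF_apply]
    rw [H.istr b (trF σ e c) hb fun i => ?_]
    · rw [← σ.sum_comp]
      refine Finset.sum_congr rfl fun i' _ => ?_
      rw [← (h i').inv]
      congr 1
      funext u w
      rw [h1, (e i').symm_apply_apply, (e i').symm_apply_apply, (h i').j, (h i').j]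
    · obtain ⟨i', rfl⟩ := σ.surjective i
      refine ((h i').z2 (ρ := tw χ)).1 ?_
      have h2 := hc i'
      refine ⟨?_, ?_⟩
      · obtain ⟨W, hW, h3⟩ := h2.1
        refine ⟨W, hW, fun g k w hw w' hw' => ?_⟩
        beta_reduce
        rw [h1, h1]
        simp only [(e i').symm_apply_apply, (h i').j]
        exact h3 g k w hw w' hw'
      · intro u w z
        have h3 := h2.2 u w z
        simp only [d2, tw, h1, (e i').symm_apply_apply, (h i').j] at h3 ⊢
        exact h3
  ld i' {M M'} _ _ _ _ {ρ ρ' B} hp := (h i').ldual (H.ld (σ i') hp)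
  fin hp := H.fin hp
  pp {M M'} _ _ _ _ {ρ ρ' B} hp := by
    intro F g hF hg hd ht
    obtain ⟨g', hg'⟩ := exists_fam (σ := σ) (A := fun i => D i → M) fun i' d => g i' ((e i').symm d)
    obtain ⟨X, Y, h1, h2, h3⟩ := H.pp hp F g' hF (fun i => by
        obtain ⟨i', rfl⟩ := σ.surjective i
        rw [hg']
        refine (h i').sm1.1 ?_
        simp only [(e i').symm_apply_apply]
        exact hg i')
      (fun i a b => by
        obtain ⟨i', rfl⟩ := σ.surjective i
        have h4 := hd i' ((e i').symm a) ((e i').symm b)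
        rw [hg']
        simp only [d1, (h i').jsymm, map_mul] at h4 ⊢
        exact h4)
      (fun x hx => by
        rw [← ht x hx, trT_apply]
        congr 2
        funext i a b
        obtain ⟨i', rfl⟩ := σ.surjective i
        rw [hg', trF_apply]
        simp only [cup11, (h i').jsymm])
    refine ⟨X, fun i' => Y (σ i'), h1, h2, fun i' d => ?_⟩
    have h4 := h3 (σ i') (e i' d)
    rw [hg'] at h4
    simpa [d0, (h i').j] using h4

end fam

end Pool.Agent.Work.MP_787500_nt.QF
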