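import Mathlib
import Pool.Agent.Work.MP_787500_nt.QF.Tran
import Pool.Agent.Work.MP_787500_nt.QS.KQ
import Pool.Agent.Work.MP_787500_nt.GA.DualQ
import Pool.Agent.Work.MP_787500_nt.RQ.HypK
import Pool.Agent.Work.MP_787500_nt.KS.V16

/-!
The places of the rational numbers: the places of `K` that split, the prime divisors of `D` and infinity. The
duality over the rational numbers for this family.
-/

set_option autoImplicit false
set_option linter.unusedSectionVars false

namespace Pool.Agent.Work.MP_787500_nt.QF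

open NumberField
open Pool.Agent.Work.MP_787500_nt.PA (cyc)
open Pool.Agent.Work.MP_787500_nt.GP (A0 IsAct d0 d1 d2 tw stabD)
open Pool.Agent.Work.MP_787500_nt.KR (FSys big fullK fullQ fullC fullD Syl Pair)
open Pool.Agent.Work.MP_787500_nt.HP (IsQ Spl IsP cyQ stb emb inr Alg)
open Pool.Agent.Work.MP_787500_nt.GA (HQ SQ iQ DatQ)
open Pool.Agent.Work.MP_787500_nt.RQ (LocF)
open Pool.Agent.Work.MP_787500_nt.KS (iK)

universe u v

section places

/-- the places that do not split -/
def plQ (T : Finset ℕ) (D : ℕ) :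
    Option D.primeFactors → Option (Option (T ∪ D.primeFactors : Finset ℕ))
  | none => none
  | some p => some (some ⟨p, Finset.mem_union_right _ p.2⟩)

/-- all places -/
def sigF (T : Finset ℕ) (D : ℕ) :
    Option T ⊕ Option D.primeFactors → Option (Option (T ∪ D.primeFactors : Finset ℕ))
  | .inl w => some (RQ.incl Finset.subset_union_left w)
  | .inr q => plQ T D q

theorem sigF_bij {T : Finset ℕ} {D : ℕ} (hd : Disjoint T D.primeFactors) :
    Function.Bijective (sigF T D) := by
  have hne : ∀ (l : T) (p : D.primeFactors), (l : ℕ) ≠ p := fun l p h =>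
    (Finset.disjoint_left.1 hd) l.2 (h ▸ p.2)
  constructor
  · intro x y h
    match x, y with
    | .inl none, .inl none => rfl
    | .inl none, .inl (some l) => exact absurd h (by simp [sigF, RQ.incl])
    | .inl (some l), .inl none => exact absurd h (by simp [sigF, RQ.incl])
    | .inl (some l), .inl (some l') =>
      simp only [sigF, RQ.incl, Option.some.injEq, Subtype.mk.injEq] at h
      rw [Subtype.ext h]
    | .inl none, .inr none => exact absurd h (by simp [sigF, RQ.incl, plQ])
    | .inl (some l), .inr none => exact absurd h (by simp [sigF, RQ.incl, plQ])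
    | .inl none, .inr (some p) => exact absurd h (by simp [sigF, RQ.incl, plQ])
    | .inl (some l), .inr (some p) =>
      simp only [sigF, RQ.incl, plQ, Option.some.injEq, Subtype.mk.injEq] at h
      exact absurd h (hne l p)
    | .inr none, .inl none => exact absurd h (by simp [sigF, RQ.incl, plQ])
    | .inr none, .inl (some l) => exact absurd h (by simp [sigF, RQ.incl, plQ])
    | .inr (some p), .inl none => exact absurd h (by simp [sigF, RQ.incl, plQ])
    | .inr (some p), .inl (some l) =>
      simp only [sigF, RQ.incl, plQ, Option.some.injEq, Subtype.mk.injEq] at h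
      exact absurd h.symm (hne l p)
    | .inr none, .inr none => rfl
    | .inr none, .inr (some p) => exact absurd h (by simp [sigF, plQ])
    | .inr (some p), .inr none => exact absurd h (by simp [sigF, plQ])
    | .inr (some p), .inr (some p') =>
      simp only [sigF, plQ, Option.some.injEq, Subtype.mk.injEq] at h
      rw [Subtype.ext h]
  · intro i
    match i with
    | none => exact ⟨.inr none, rfl⟩
    | some none => exact ⟨.inl none, rfl⟩
    | some (some ⟨n, hn⟩) =>
      rcases Finset.mem_union.1 hn with h | h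
      · exact ⟨.inl (some ⟨n, h⟩), rfl⟩
      · exact ⟨.inr (some ⟨n, h⟩), rfl⟩

end places

/-- isomorphisms and the systems `big` -/
theorem big_iso {X X' : Type*} [Group X] [Group X'] {F : FSys X} {F' : FSys X'} {N : Subgroup X}
    {N' : Subgroup X'} (e : X' ≃* X)
    (hF : ∀ W : Subgroup X, F'.mem (W.comap e.toMonoidHom) ↔ F.mem W)
    (hN : ∀ d, e d ∈ N ↔ d ∈ N') (W : Subgroup X) :
    (big F' N').mem (W.comap e.toMonoidHom) ↔ (big F N).mem W := by
  have hmap : ∀ W : Subgroup X, (W.comap e.toMonoidHom).map e.toMonoidHom = W := fun W =>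
    Subgroup.map_comap_eq_self_of_surjective e.surjective W
  have hcm : ∀ W : Subgroup X', (W.map e.toMonoidHom).comap e.toMonoidHom = W := fun W =>
    Subgroup.comap_map_eq_self_of_injective e.injective W
  have hN' : N'.map e.toMonoidHom = N := by
    have h1 : N.comap e.toMonoidHom = N' := by
      ext d
      exact hN d
    rw [← h1, hmap]
  have h1 : (W.comap e.toMonoidHom).Normal ↔ W.Normal := by
    constructor
    · intro h1
      rw [← hmap W]
      exact Subgroup.Normal.map h1 _ e.surjective
    · intro h1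
      infer_instance
  have h2 : (∃ W₁, F'.mem W₁ ∧ W₁ ≤ W.comap e.toMonoidHom) ↔ ∃ W₁, F.mem W₁ ∧ W₁ ≤ W := by
    constructor
    · rintro ⟨W₁, h2, h3⟩
      refine ⟨W₁.map e.toMonoidHom, ?_, Subgroup.map_le_iff_le_comap.2 h3⟩
      rwa [← hF, hcm]
    · rintro ⟨W₁, h2, h3⟩
      exact ⟨_, (hF _).2 h2, Subgroup.comap_mono h3⟩
  have h3 : (W.comap e.toMonoidHom).relIndex N' = W.relIndex N := by
    rw [Subgroup.relIndex_comap, hN']
  show _ ∧ _ ∧ _ ↔ _ ∧ _ ∧ _
  rw [h1, h2, h3]

variable {K : Type u} [Field K] [NumberField K] {D : ℕ} {s : K}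
  {c : AlgebraicClosure K ≃+* AlgebraicClosure K} {κ : AbsGal K →* AbsGal K} {T : Finset ℕ}
  {P : ℕ → Ideal (𝓞 (AlgebraicClosure K))}

theorem PP_incl (w : Option T) : HP.PP P (RQ.incl Finset.subset_union_left w :
    Option (T ∪ D.primeFactors : Finset ℕ)) = HP.PP P w := by
  match w with
  | none => rfl
  | some l => rfl

/-- the local groups at the places that split -/
theorem lIso_split (hK : IsQ K D s) (hT : ∀ l ∈ T, Spl D l) (hP : IsP T P)
    (N₀ : Subgroup (AbsGal K)) (w : Option T) {Q : Ideal (𝓞 (AlgebraicClosure K))}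
    (hQ : Q = HP.PP P w)
    {iv : (stabD (HP.PP P w) → stabD (HP.PP P w) → A0) → A0} {ivF : (stb Q → stb Q → A0) → A0}
    (hrel : ∀ f : (AlgebraicClosure K ≃+* AlgebraicClosure K) →
      (AlgebraicClosure K ≃+* AlgebraicClosure K) → A0,
      iv (fun a b => f (iK K (a : AbsGal K)) (iK K (b : AbsGal K))) = ivF (fun a b => f a b)) :
    ∃ e : stabD (HP.PP P w) ≃* stb Q,
      LIso (big (fullC (stb Q)) ((N₀.map (iK K)).subgroupOf (stb Q)))
        (big (fullD (stabD (HP.PP P w))) (N₀.comap (stabD (HP.PP P w)).subtype))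
        (stb Q).subtype ((iK K).comp (stabD (HP.PP P w)).subtype) ivF iv e := by
  classical
  subst hQ
  have hle := GA.stb_le_refl hK hT hP w
  let f : stabD (HP.PP P w) →* stb (HP.PP P w) :=
    { toFun := fun σ => ⟨iK K (σ : AbsGal K), GA.emb_refl_stb.2 σ.2⟩
      map_one' := Subtype.ext (map_one (iK K))
      map_mul' := fun σ τ => Subtype.ext (map_mul (iK K) (σ : AbsGal K) τ) }
  have hf : Function.Bijective f := by
    constructor
    · intro σ τ h
      exact Subtype.ext (HP.emb_inj _ (congrArg Subtype.val h))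
    · intro g
      obtain ⟨σ, hσ⟩ := hle g.2
      refine ⟨⟨σ, GA.emb_refl_stb.1 ?_⟩, Subtype.ext hσ⟩
      rw [hσ]
      exact g.2
  let e := MulEquiv.ofBijective f hf
  have he : ∀ d, ((e d : stb (HP.PP P w)) : AlgebraicClosure K ≃+* AlgebraicClosure K) =
    iK K (d : AbsGal K) := fun d => rfl
  have hes : ∀ g, iK K ((e.symm g : stabD (HP.PP P w)) : AbsGal K) = g := fun g => by
    rw [← he, e.apply_symm_apply]
  refine ⟨e, big_iso e (fun W => ?_) (fun d => ?_), fun d => rfl, fun F => ?_⟩
  · rw [← GA.fullC_iso (RingEquiv.refl (AlgebraicClosure K)) e.symm hes]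
    have h1 : (W.comap e.toMonoidHom).comap (e.symm : stb (HP.PP P w) →* stabD (HP.PP P w)) = W := by
      ext x
      show e (e.symm x) ∈ W ↔ x ∈ W
      rw [e.apply_symm_apply]
    rw [h1]
  · rw [Subgroup.mem_subgroupOf, Subgroup.mem_comap, he]
    constructor
    · rintro ⟨n, hn, hn'⟩
      have h1 := HP.emb_inj _ hn'
      show (d : AbsGal K) ∈ N₀
      rw [← h1]
      exact hn
    · intro h
      exact ⟨_, h, rfl⟩
  · have h1 := hrel fun a b => if h : a ∈ stb (HP.PP P w) ∧ b ∈ stb (HP.PP P w) then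
      F ⟨a, h.1⟩ ⟨b, h.2⟩ else 0
    have e1 : (fun a b : stb (HP.PP P w) => if h : (a : AlgebraicClosure K ≃+* AlgebraicClosure K) ∈
        stb (HP.PP P w) ∧ (b : AlgebraicClosure K ≃+* AlgebraicClosure K) ∈ stb (HP.PP P w) then
        F ⟨a, h.1⟩ ⟨b, h.2⟩ else 0) = F := by
      funext a b
      rw [dif_pos ⟨a.2, b.2⟩]
    have e2 : (fun a b : stabD (HP.PP P w) => if h : iK K (a : AbsGal K) ∈
        stb (HP.PP P w) ∧ iK K (b : AbsGal K) ∈ stb (HP.PP P w) then
        F ⟨iK K a, h.1⟩ ⟨iK K b, h.2⟩ else 0) = fun a b => F (e a) (e b) := by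
      funext a b
      rw [dif_pos ⟨GA.emb_refl_stb.2 a.2, GA.emb_refl_stb.2 b.2⟩]
      rfl
    rw [e1, e2] at h1
    exact h1

end Pool.Agent.Work.MP_787500_nt.QF
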