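import Mathlib
import Pool.Agent.Work.MP_787500_nt.QF.Glob1
import Pool.Agent.Work.MP_787500_nt.KR.LD3
import Pool.Agent.Work.MP_787500_nt.KR.T05

/-!
The duality `HQ` over the rational numbers, for the family of the places that split and the other places.
-/

set_option autoImplicit false
set_option linter.unusedSectionVars false

namespace Pool.Agent.Work.MP_787500_nt.QF

open NumberField
open Pool.Agent.Work.MP_787500_nt.PA (cyc)
open Pool.Agent.Work.MP_787500_nt.GP (A0 IsAct d0 d1 d2 tw stabD)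
open Pool.Agent.Work.MP_787500_nt.KR (FSys big fullK fullQ fullC fullD Syl Pair)
open Pool.Agent.Work.MP_787500_nt.HP (IsQ Spl IsP cyQ stb emb inr Alg)
open Pool.Agent.Work.MP_787500_nt.GA (HQ SQ iQ DatQ)
open Pool.Agent.Work.MP_787500_nt.RQ (LocF)
open Pool.Agent.Work.MP_787500_nt.KS (iK)

universe u v

/-- the duality over the rational numbers -/
theorem hq_datQ {Ω : Type u} [Field Ω] [CharZero Ω] [IsAlgClosed Ω] (halg : Alg Ω)
    {c : Ω ≃+* Ω} (hc : ∀ x, c (c x) = x) (hne : ∃ x, c x ≠ x) {T : Finset ℕ}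
    {P : ℕ → Ideal (𝓞 Ω)} (hP : IsP T P) {N₀ C : Subgroup (Ω ≃+* Ω)} [Fintype ((Ω ≃+* Ω) ⧸ C)]
    {iv ivF : ∀ w : Option T, (stb (HP.PP P w) → stb (HP.PP P w) → A0) → A0}
    (hG : ∀ w, GP.LocH (HP.fsys (stb (HP.PP P w)))
      (fun d : stb (HP.PP P w) => cyQ (d : Ω ≃+* Ω)) (iv w))
    (hF : ∀ w, LocF (stb (HP.PP P w)) (iv w) (ivF w)) (h : DatQ c T P N₀ C ivF)
    {tr : (((Ω ≃+* Ω) → (Ω ≃+* Ω) → (Ω ≃+* Ω) → A0) ×
      (∀ i : Option (Option T), HQ c P i → HQ c P i → A0)) →+ A0}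
    (htr : KR.IsTr (big (fullQ Ω (T : Set ℕ)) N₀) (SQ c P N₀) (GA.jQ c P) cyQ (iQ c P ivF) tr) :
    QS.HQ.{v} (big (fullQ Ω (T : Set ℕ)) N₀) (SQ c P N₀) (GA.jQ c P) cyQ (iQ c P ivF) tr where
  glob := h.glob
  istr := htr
  ld i {M M'} _ _ _ _ {ρ ρ' B} hp := GA.ldQ halg hc hne hP hG hF h.syl.normal h.syl.opn i hp
  fin hp := h.finZ hp
  pp hp := (h.dual htr hp).1

variable {K : Type u} [Field K] [NumberField K] {D : ℕ} {s : K}
  {c : AlgebraicClosure K ≃+* AlgebraicClosure K} {κ : AbsGal K →* AbsGal K} {T : Finset ℕ}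
  {P : ℕ → Ideal (𝓞 (AlgebraicClosure K))}

theorem disj_T (hT : ∀ l ∈ T, Spl D l) : Disjoint T D.primeFactors := by
  rw [Finset.disjoint_left]
  intro l hl hlD
  exact (hT l hl).2.2.1 (Nat.dvd_of_mem_primeFactors hlD)

theorem isP_left (hP : IsP (T ∪ D.primeFactors) P) : IsP T P :=
  ⟨fun l hl => hP.prime l (Finset.mem_union_left _ hl),
    fun l hl => hP.odd l (Finset.mem_union_left _ hl),
    fun l hl => hP.isPrime l (hl.imp (fun h => Finset.mem_union_left _ h) id),
    fun l hl => hP.mem l (hl.imp (fun h => Finset.mem_union_left _ h) id)⟩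

theorem exists_conj_ne (hK : IsQ K D s) (hc : PA.IsConj s c) : ∃ x, c x ≠ x := by
  refine ⟨algebraMap K (AlgebraicClosure K) s, ?_⟩
  rw [hc.neg]
  exact (KS.s_ne hK).symm

/-- the duality over the rational numbers, for all places -/
theorem hq_K (hK : IsQ K D s) (hc : PA.IsConj s c) (hT : ∀ l ∈ T, Spl D l)
    (hP : IsP (T ∪ D.primeFactors) P) {N₀ : Subgroup (AbsGal K)}
    {C : Subgroup (AlgebraicClosure K ≃+* AlgebraicClosure K)}
    [Fintype ((AlgebraicClosure K ≃+* AlgebraicClosure K) ⧸ C)]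
    {invQ invFQ : ∀ w : Option (T ∪ D.primeFactors : Finset ℕ),
        (stb (HP.PP P w) → stb (HP.PP P w) → A0) → A0}
    {invF : ∀ w : Option T, (stabD (HP.PP P w) → stabD (HP.PP P w) → A0) → A0}
    (hG : ∀ w, GP.LocH (HP.fsys (stb (HP.PP P w)))
      (fun d : stb (HP.PP P w) => cyQ (d : AlgebraicClosure K ≃+* AlgebraicClosure K)) (invQ w))
    (hF : ∀ w, LocF (stb (HP.PP P w)) (invQ w) (invFQ w))
    (h : DatQ c (T ∪ D.primeFactors) P (N₀.map (iK K)) C invFQ)
    (hrel : ∀ (w : Option T) (f : (AlgebraicClosure K ≃+* AlgebraicClosure K) →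
      (AlgebraicClosure K ≃+* AlgebraicClosure K) → A0),
      invF w (fun a b => f (iK K (a : AbsGal K)) (iK K (b : AbsGal K))) =
        invFQ (RQ.incl Finset.subset_union_left w) (fun a b => f a b)) :
    ∃ tr, QS.HQ.{v} (big (KS.sQ K T D) (N₀.map (iK K)))
      (QS.sQ (D := fun w : Option T => stabD (HP.PP P w))
        (E := fun q : Option D.primeFactors => HQ c P (plQ T D q))
        (fun w => big (fullD (stabD (HP.PP P w))) (N₀.comap (stabD (HP.PP P w)).subtype))
        (fun q => SQ c P (N₀.map (iK K)) (plQ T D q)))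
      (QS.jQ (iK K) (fun w => (stabD (HP.PP P w)).subtype) (fun q => GA.jQ c P (plQ T D q))) cyQ
      (QS.iQ invF (fun q => iQ c P invFQ (plQ T D q))) tr := by
  have halg := HP.alg_closure K
  have hne := exists_conj_ne hK hc
  obtain ⟨tr, htr⟩ := KR.exists_tr h.glob
  have hH := hq_datQ.{u, v} halg hc.sq hne hP hG hF h htr
  let σ := Equiv.ofBijective (sigF T D) (sigF_bij (disj_T hT))
  have hl : ∀ i : Option T ⊕ Option D.primeFactors, ∃ e : QS.gQ
      (fun w : Option T => stabD (HP.PP P w))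
      (fun q : Option D.primeFactors => HQ c P (plQ T D q)) i ≃* HQ c P (σ i),
      LIso (SQ c P (N₀.map (iK K)) (σ i)) (QS.sQ (D := fun w : Option T => stabD (HP.PP P w))
        (E := fun q : Option D.primeFactors => HQ c P (plQ T D q))
        (fun w => big (fullD (stabD (HP.PP P w))) (N₀.comap (stabD (HP.PP P w)).subtype))
        (fun q => SQ c P (N₀.map (iK K)) (plQ T D q)) i) (GA.jQ c P (σ i))
        (QS.jQ (iK K) (fun w => (stabD (HP.PP P w)).subtype) (fun q => GA.jQ c P (plQ T D q)) i)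
        (iQ c P invFQ (σ i)) (QS.iQ invF (fun q => iQ c P invFQ (plQ T D q)) i) e := by
    rintro (w | q)
    · exact lIso_split hK hT (isP_left hP) N₀ w (PP_incl w) (hrel w)
    · exact ⟨MulEquiv.refl _, fun W => Iff.rfl, fun d => rfl, fun f => rfl⟩
  choose e he using hl
  exact ⟨_, hq_trans he hH⟩

end Pool.Agent.Work.MP_787500_nt.QF
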