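import Mathlib
import Pool.Agent.Work.MP_787500_nt.QF.Glob2
import Pool.Agent.Work.MP_787500_nt.KS.V17

/-!
The hypotheses `QS.KQ` for the imaginary quadratic field `K` and the rational numbers.
-/

set_option autoImplicit false
set_option linter.unusedSectionVars false

namespace Pool.Agent.Work.MP_787500_nt.QF

open NumberField
open Pool.Agent.Work.MP_787500_nt.PA (cyc)
open Pool.Agent.Work.MP_787500_nt.GP (A0 IsAct d0 d1 d2 tw stabD)
open Pool.Agent.Work.MP_787500_nt.KR (FSys big fullK fullQ fullC fullD Syl Pair Smooth)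
open Pool.Agent.Work.MP_787500_nt.HP (IsQ Spl IsP cyQ stb emb inr Alg)
open Pool.Agent.Work.MP_787500_nt.GA (HQ SQ iQ DatQ)
open Pool.Agent.Work.MP_787500_nt.RQ (LocF)
open Pool.Agent.Work.MP_787500_nt.KS (iK)

universe u v

variable {K : Type u} [Field K] [NumberField K] {D : ℕ} {s : K}
  {c : AlgebraicClosure K ≃+* AlgebraicClosure K} {κ : AbsGal K →* AbsGal K} {T : Finset ℕ}
  {P : ℕ → Ideal (𝓞 (AlgebraicClosure K))} {N₀ : Subgroup (AbsGal K)}

theorem kap_big (hc : PA.IsConj s c)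
    (hκ : ∀ (σ : AbsGal K) (x : AlgebraicClosure K), κ σ x = c (σ (c x)))
    (kN : ∀ g ∈ N₀, κ g ∈ N₀) {W : Subgroup (AbsGal K)} (hW : (big (fullK (K := K) T) N₀).mem W) :
    (big (fullK (K := K) T) N₀).mem (W.comap κ) := by
  obtain ⟨hn, ⟨W₁, hW₁, h1⟩, hk⟩ := hW
  exact ⟨inferInstance, ⟨_, RQ.kap_full hc hκ T hW₁, Subgroup.comap_mono h1⟩,
    KR.comap_rel κ W (Subgroup.map_le_iff_le_comap.2 kN) hk⟩

theorem map_normal (hK : IsQ K D s) (hc : PA.IsConj s c)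
    (hκ : ∀ (σ : AbsGal K) (x : AlgebraicClosure K), κ σ x = c (σ (c x)))
    {V : Subgroup (AbsGal K)} (hV : V.Normal) (hk : ∀ g ∈ V, κ g ∈ V) :
    (V.map (iK K)).Normal := by
  refine ⟨?_⟩
  rintro _ ⟨n, hn, rfl⟩ g
  have h1 : ∀ m n : AbsGal K, n ∈ V → iK K m * iK K n * (iK K m)⁻¹ ∈ V.map (iK K) := fun m n hn =>
    ⟨m * n * m⁻¹, hV.conj_mem n hn m, by rw [map_mul, map_mul, map_inv]⟩
  rcases KS.iK_cases hK hc g with ⟨m, rfl⟩ | ⟨m, rfl⟩
  · exact h1 m n hn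
  · have e1 : iK K m * c * iK K n * (iK K m * c)⁻¹ = iK K m * iK K (κ n) * (iK K m)⁻¹ := by
      rw [← KS.mem_map_c hc hκ]
      group
    rw [e1]
    exact h1 m _ (hk n hn)

/-- the members of the system over `K` contain members of the system over the rational numbers -/
theorem up_big (hK : IsQ K D s) (hc : PA.IsConj s c)
    (hκ : ∀ (σ : AbsGal K) (x : AlgebraicClosure K), κ σ x = c (σ (c x)))
    (kN : ∀ g ∈ N₀, κ g ∈ N₀) {W : Subgroup (AbsGal K)} (hW : (big (fullK (K := K) T) N₀).mem W) :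
    ∃ W', (big (KS.sQ K T D) (N₀.map (iK K))).mem W' ∧ ∀ σ ∈ W', ∃ g ∈ W, iK K g = σ := by
  have hk := kap_big hc hκ kN hW
  obtain ⟨hn, ⟨W₁, hW₁, h1⟩, h2⟩ := (big (fullK (K := K) T) N₀).inf hW hk
  obtain ⟨W', hW', h3⟩ := KS.push hK hc hκ hW₁
  refine ⟨(W ⊓ W.comap κ).map (iK K), ⟨map_normal hK hc hκ hn fun g hg => ⟨hg.2, ?_⟩,
    ⟨W', hW', fun w hw => ?_⟩, ?_⟩, ?_⟩
  · show κ (κ g) ∈ W
    rw [GA.kap_kap hc hκ]
    exact hg.1
  · obtain ⟨n, hn, rfl⟩ := h3 w hw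
    exact ⟨n, h1 hn, rfl⟩
  · obtain ⟨k, hk⟩ := h2
    refine ⟨k, ?_⟩
    rw [← hk, ← Subgroup.relIndex_comap, Subgroup.comap_map_eq_self_of_injective (HP.emb_inj _)]
  · rintro _ ⟨g, hg, rfl⟩
    exact ⟨g, hg.1, rfl⟩

/-- elements of `K` in the inertia group at a prime that does not contain 2 or an element of `T` -/
theorem mem_full {W : Subgroup (AbsGal K)} (hW : (fullK (K := K) T).mem W)
    {Q : Ideal (𝓞 (AlgebraicClosure K))} (hQ : Q.IsPrime) (h2 : (2 : 𝓞 (AlgebraicClosure K)) ∉ Q)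
    (hT : ∀ l ∈ T, (l : 𝓞 (AlgebraicClosure K)) ∉ Q) {g : AbsGal K} (hg : iK K g ∈ inr Q) : g ∈ W :=
  (((GA.emdK (RingEquiv.refl (AlgebraicClosure K)) T).sys W).1 hW).2.2.2 Q hQ h2 hT g hg

theorem two_P (hP : IsP (T ∪ D.primeFactors) P) {p : ℕ} (hp : p ∈ D.primeFactors) :
    (2 : 𝓞 (AlgebraicClosure K)) ∉ P p := by
  have hm : p ∈ T ∪ D.primeFactors := Finset.mem_union_right _ hp
  exact KS.two_notMem (hP.prime p hm) (hP.odd p hm) (hP.isPrime p (Or.inl hm))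
    (hP.mem p (Or.inl hm))

theorem T_P (hT : ∀ l ∈ T, Spl D l) (hP : IsP (T ∪ D.primeFactors) P) {p : ℕ}
    (hp : p ∈ D.primeFactors) : ∀ l ∈ T, (l : 𝓞 (AlgebraicClosure K)) ∉ P p := by
  intro l hl h
  have hm : p ∈ T ∪ D.primeFactors := Finset.mem_union_right _ hp
  have hpp := hP.prime p hm
  have h1 : ((l : ℤ) : 𝓞 (AlgebraicClosure K)) ∈ P p := by
    rw [Int.cast_natCast]
    exact h
  rw [HP.nat_mem hpp (hP.isPrime p (Or.inl hm)) (hP.mem p (Or.inl hm))] at h1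
  have h2 : p ∣ l := by exact_mod_cast h1
  obtain ⟨g1, -, g3, -⟩ := hT l hl
  rw [(Nat.prime_dvd_prime_iff_eq hpp g1).1 h2] at hp
  exact g3 (Nat.dvd_of_mem_primeFactors hp)

/-- The two notions of smooth cocycles agree for cocycles that vanish on the inertia groups. -/
theorem smo_K (hK : IsQ K D s) (hc : PA.IsConj s c)
    (hκ : ∀ (σ : AbsGal K) (x : AlgebraicClosure K), κ σ x = c (σ (c x)))
    (hP : IsP (T ∪ D.primeFactors) P)
    (hθ : ∀ p ∈ D.primeFactors, ∃ m : AbsGal K, iK K m * c ∈ inr (P p))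
    {M : Type v} [AddCommGroup M] {ρ : AbsGal K → M → M} (act : IsAct ρ)
    (hs : Smooth (big (fullK (K := K) T) N₀) ρ) {x : AbsGal K → M}
    (hx : ∀ a b, x (a * b) = x a + ρ a (x b))
    (h1 : ∃ W, (big (KS.sQ K T D) (N₀.map (iK K))).mem W ∧ ∀ g, iK K g ∈ W → x g = 0)
    (h2 : ∀ p ∈ D.primeFactors, ∀ g, iK K g ∈ inr (P p) → x g = 0) :
    ∃ W, (big (fullK (K := K) T) N₀).mem W ∧ ∀ g ∈ W, x g = 0 := by
  classical
  obtain ⟨V, hV, hVρ⟩ := hs
  obtain ⟨W, ⟨hWn, ⟨W₁, hW₁, hle⟩, hWk⟩, hW0⟩ := h1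
  have hx1 : x 1 = 0 := by
    have h3 := hx 1 1
    rw [mul_one, act.one] at h3
    exact left_eq_add.1 h3
  -- the subgroup of a subgroup of `V` on which `x` vanishes
  let sub : ∀ V' : Subgroup (AbsGal K), V' ≤ V → Subgroup (AbsGal K) := fun V' hV' =>
    { carrier := {g | g ∈ V' ∧ x g = 0}
      mul_mem' := by
        rintro a b ⟨ha, ha'⟩ ⟨hb, hb'⟩
        refine ⟨mul_mem ha hb, ?_⟩
        rw [hx, ha', hb', act.zero, add_zero]
      one_mem' := ⟨V'.one_mem, hx1⟩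
      inv_mem' := by
        rintro a ⟨ha, ha'⟩
        refine ⟨inv_mem ha, ?_⟩
        have h3 := hx a a⁻¹
        rw [mul_inv_cancel, hx1, ha', zero_add, hVρ a (hV' ha)] at h3
        exact h3.symm }
  have hconj : ∀ g w, w ∈ V → x w = 0 → x (g * w * g⁻¹) = 0 := by
    intro g w hw hw0
    have h3 : x g + ρ g (x g⁻¹) = 0 := by rw [← hx, mul_inv_cancel, hx1]
    rw [hx, hx, hw0, act.zero, add_zero, act.mul, hVρ w hw, h3]
  have hsubn : ∀ V' hV', V'.Normal → (sub V' hV').Normal := fun V' hV' hn =>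
    ⟨fun w hw g => ⟨hn.conj_mem w hw.1 g, hconj g w (hV' hw.1) hw.2⟩⟩
  refine ⟨sub V le_rfl, ⟨hsubn V le_rfl hV.1, ?_, ?_⟩, fun g hg => hg.2⟩
  · obtain ⟨V₁, hV₁, hVV⟩ := hV.2.1
    refine ⟨sub V₁ hVV, ?_, fun g hg => ⟨hVV hg.1, hg.2⟩⟩
    obtain ⟨-, hi0, ⟨s₀, hs₀⟩, hin0⟩ :=
      ((GA.emdK (RingEquiv.refl (AlgebraicClosure K)) T).sys V₁).1 hV₁
    obtain ⟨⟨⟨s₁, hs₁⟩, hn1, hi1⟩, hin1⟩ := hW₁
    refine ((GA.emdK (RingEquiv.refl (AlgebraicClosure K)) T).sys _).2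
      ⟨hsubn V₁ hVV ((fullK (K := K) T).normal hV₁), ?_, ⟨s₀ ∪ s₁, fun g hg => ?_⟩,
        fun Q hQp h2Q hTQ g hg => ?_⟩
    · have h3 : V₁ ⊓ W₁.comap (iK K) ≤ sub V₁ hVV := fun g hg => ⟨hg.1, hW0 _ (hle hg.2)⟩
      have h4 : (W₁.comap (iK K)).index ≠ 0 := by
        rw [Subgroup.index_comap]
        exact fun h0 => hi1 (Nat.eq_zero_of_zero_dvd (h0 ▸
          Subgroup.relIndex_dvd_index_of_normal _ _))
      exact fun h0 => Subgroup.index_inf_ne_zero hi0 h4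
        (Nat.eq_zero_of_zero_dvd (h0 ▸ Subgroup.index_dvd_of_le h3))
    · exact ⟨hs₀ g fun x hx => hg x (Finset.mem_union_left _ hx),
        hW0 _ (hle (hs₁ _ fun x hx => hg x (Finset.mem_union_right _ hx)))⟩
    · have hg0 : g ∈ V₁ := hin0 Q hQp h2Q hTQ g hg
      refine ⟨hg0, ?_⟩
      by_cases hD : ∃ p ∈ D.primeFactors, (p : 𝓞 (AlgebraicClosure K)) ∈ Q
      · obtain ⟨p, hp, hpQ⟩ := hD
        have hm : p ∈ T ∪ D.primeFactors := Finset.mem_union_right _ hp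
        -- `Q` is conjugate to `P p` by an element of the group of `K`
        obtain ⟨h, rfl⟩ : ∃ h : AbsGal K, Q = GA.cj (iK K h) (P p) := by
          obtain ⟨g₀, rfl⟩ := GA.exists_cj (HP.alg_closure K) (hP.prime p hm)
            (hP.isPrime p (Or.inl hm)) hQp (hP.mem p (Or.inl hm)) hpQ
          rcases KS.iK_cases hK hc g₀ with ⟨m, rfl⟩ | ⟨m, rfl⟩
          · exact ⟨m, rfl⟩
          · obtain ⟨m', hm'⟩ := hθ p hp
            refine ⟨m * κ m', ?_⟩
            have e1 : iK K (m * κ m') = iK K m * c * (iK K m' * c) := by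
              rw [map_mul, ← KS.mem_map_c hc hκ, GA.c_inv hc]
              group
            rw [e1, GA.cj_mul (iK K m * c), GA.cj_eq_iff.2 (HP.inr_le_stb _ hm')]
        rw [GA.inr_cj] at hg
        have h3 : x (h⁻¹ * g * h) = 0 := by
          refine h2 p hp _ ?_
          rwa [map_mul, map_mul, map_inv]
        have h4 : h⁻¹ * g * h ∈ V := by
          have h5 := hV.1.conj_mem g (hVV hg0) h⁻¹
          rwa [inv_inv] at h5
        have h5 := hconj h _ h4 h3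
        have e1 : h * (h⁻¹ * g * h) * h⁻¹ = g := by group
        rwa [e1] at h5
      · push Not at hD
        refine hW0 _ (hle (hin1 Q hQp h2Q (fun l hl => ?_) hg))
        rw [Finset.mem_coe, Finset.mem_union] at hl
        rcases hl with hl | hl
        · exact hTQ l hl
        · exact hD l hl
  · have hn := hV.1
    obtain ⟨k, hk⟩ := KR.relIndex_inf hV.2.2 (KR.comap_rel (N' := N₀) (iK K) W le_rfl hWk)
    have h3 : V ⊓ W.comap (iK K) ≤ sub V le_rfl := fun g hg => ⟨hg.1, hW0 _ hg.2⟩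
    have h4 := Subgroup.relIndex_dvd_of_le_left N₀ h3
    rw [hk] at h4
    obtain ⟨m, -, hm⟩ := (Nat.dvd_prime_pow Nat.prime_two).1 h4
    exact ⟨m, hm⟩

/-- the inertia groups of `K` at the places that do not split -/
def InQ (c : AlgebraicClosure K ≃+* AlgebraicClosure K) (T : Finset ℕ) (D : ℕ)
    (P : ℕ → Ideal (𝓞 (AlgebraicClosure K))) : ∀ q : Option D.primeFactors,
      Set (HQ c P (plQ T D q))
  | none => ∅
  | some p => {d | (d : AlgebraicClosure K ≃+* AlgebraicClosure K) ∈ inr (P p) ∧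
      ∃ g, iK K g = (d : AlgebraicClosure K ≃+* AlgebraicClosure K)}

/-- THE HYPOTHESES `KQ`. -/
theorem kq_K (hK : IsQ K D s) (hc : PA.IsConj s c)
    (hκ : ∀ (σ : AbsGal K) (x : AlgebraicClosure K), κ σ x = c (σ (c x)))
    (hT : ∀ l ∈ T, Spl D l) (hP : IsP (T ∪ D.primeFactors) P)
    (hθ : ∀ p ∈ D.primeFactors, ∃ m : AbsGal K, iK K m * c ∈ inr (P p))
    (kN : ∀ g ∈ N₀, κ g ∈ N₀)
    {invFQ : ∀ w : Option (T ∪ D.primeFactors : Finset ℕ),
        (stb (HP.PP P w) → stb (HP.PP P w) → A0) → A0}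
    {invF : ∀ w : Option T, (stabD (HP.PP P w) → stabD (HP.PP P w) → A0) → A0}
    {tr}
    (hH : QS.HQ.{v} (big (KS.sQ K T D) (N₀.map (iK K)))
      (QS.sQ (D := fun w : Option T => stabD (HP.PP P w))
        (E := fun q : Option D.primeFactors => HQ c P (plQ T D q))
        (fun w => big (fullD (stabD (HP.PP P w))) (N₀.comap (stabD (HP.PP P w)).subtype))
        (fun q => SQ c P (N₀.map (iK K)) (plQ T D q)))
      (QS.jQ (iK K) (fun w => (stabD (HP.PP P w)).subtype) (fun q => GA.jQ c P (plQ T D q))) cyQ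
      (QS.iQ invF (fun q => iQ c P invFQ (plQ T D q))) tr) :
    QS.KQ.{u, v} (big (fullK (K := K) T) N₀)
      (D := fun w : Option T => stabD (HP.PP P w))
      (fun w => big (fullD (stabD (HP.PP P w))) (N₀.comap (stabD (HP.PP P w)).subtype))
      (fun w => (stabD (HP.PP P w)).subtype) cyc invF κ (big (KS.sQ K T D) (N₀.map (iK K)))
      (E := fun q : Option D.primeFactors => HQ c P (plQ T D q))
      (fun q => SQ c P (N₀.map (iK K)) (plQ T D q)) (fun q => GA.jQ c P (plQ T D q)) cyQ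
      (fun q => iQ c P invFQ (plQ T D q)) (iK K) c (InQ c T D P) tr where
  two :=
    { inj := HP.emb_inj _
      cc := KS.c_sq hc
      kap := GA.emb_kap hκ
      cases := fun σ => by
        rcases KS.iK_cases hK hc σ with ⟨n, h⟩ | ⟨n, h⟩
        · exact Or.inl ⟨n, h.symm⟩
        · exact Or.inr ⟨n, h.symm⟩
      nc := KS.iK_nc hK hc }
  chi g := HP.cyQ_emb _ g
  chic := HP.cyQ_conj hc.sq (exists_conj_ne hK hc)
  up W hW := up_big hK hc hκ kN hW
  inz q d hd := by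
    match q, d, hd with
    | none, d, hd => exact absurd hd (Set.notMem_empty d)
    | some p, d, hd =>
      obtain ⟨h1, g, hg⟩ := hd
      refine ⟨g, hg, fun W hW => ?_⟩
      obtain ⟨W₁, hW₁, hle⟩ := hW.2.1
      refine hle (mem_full hW₁ (hP.isPrime p (Or.inl (Finset.mem_union_right _ p.2))) (two_P hP p.2)
        (T_P hT hP p.2) ?_)
      rw [hg]
      exact h1
  smo {M} _ _ {ρ} act hs x hx h1 h2 := smo_K hK hc hκ hP hθ act hs hx h1 fun p hp g hg =>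
    h2 (some ⟨p, hp⟩) ⟨iK K g, HP.inr_le_stb _ hg⟩ ⟨hg, g, rfl⟩ g rfl
  glob := hH

end Pool.Agent.Work.MP_787500_nt.QF
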