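import Mathlib
import Pool.Agent.Work.MP_787500_nt.QF.Glob3
import Pool.Agent.Work.MP_787500_nt.KR.M2_Mid

/-!
Existence of the invariants over `K` and over the rational numbers with the hypotheses `HypP` and `KQ`, for all
sufficiently large sets of places.
-/

set_option autoImplicit false
set_option linter.unusedSectionVars false

namespace Pool.Agent.Work.MP_787500_nt.QF

open NumberField
open Pool.Agent.Work.MP_787500_nt.PA (cyc)
open Pool.Agent.Work.MP_787500_nt.GP (A0 IsAct d0 d1 d2 tw stabD)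
open Pool.Agent.Work.MP_787500_nt.KR (FSys big fullK fullQ fullC fullD Syl Pair Smooth HypP)
open Pool.Agent.Work.MP_787500_nt.HP (IsQ Spl IsP cyQ stb emb inr Alg QDat)
open Pool.Agent.Work.MP_787500_nt.GA (HQ SQ iQ DatQ)
open Pool.Agent.Work.MP_787500_nt.RQ (LocF KDatF)
open Pool.Agent.Work.MP_787500_nt.KS (iK)

universe u v

variable {K : Type u} [Field K] [NumberField K] {D : ℕ} {s : K}
  {c : AlgebraicClosure K ≃+* AlgebraicClosure K} {κ : AbsGal K →* AbsGal K}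
  {N₀ : Subgroup (AbsGal K)}

open scoped Classical in
/-- THE HYPOTHESES OVER `K` AND OVER THE RATIONAL NUMBERS. -/
theorem exists_kq (hK : IsQ K D s) (hc : PA.IsConj s c)
    (hκ : ∀ (σ : AbsGal K) (x : AlgebraicClosure K), κ σ x = c (σ (c x))) {T₀ : Finset ℕ}
    (hT₀ : ∀ l ∈ T₀, Spl D l) (hN : (fullK (K := K) T₀).mem N₀) (kN : ∀ g ∈ N₀, κ g ∈ N₀) :
    ∃ (C : Subgroup (AbsGal K)) (T₁ : Finset ℕ), T₀ ⊆ T₁ ∧ (∀ l ∈ T₁, Spl D l) ∧
      ∀ T : Finset ℕ, T₁ ⊆ T → (∀ l ∈ T, Spl D l) →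
      ∀ P : ℕ → Ideal (𝓞 (AlgebraicClosure K)), IsP (T ∪ D.primeFactors) P →
      ∃ (invQ invFQ : ∀ w : Option (T ∪ D.primeFactors : Finset ℕ),
          (stb (HP.PP P w) → stb (HP.PP P w) → A0) → A0)
        (inv invF : ∀ w : Option T, (stabD (HP.PP P w) → stabD (HP.PP P w) → A0) → A0)
        (θ φ : ℕ → AbsGal K) (m : ℕ → ℤ) (v : ℕ → ℤ_[2]),
        QDat c (T ∪ D.primeFactors) P invQ ∧
        (∀ w, LocF (stb (HP.PP P w)) (invQ w) (invFQ w)) ∧
        (∀ f, KR.Z2 (RQ.ufull (AlgebraicClosure K) ((T ∪ D.primeFactors : Finset ℕ) : Set ℕ))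
          (tw cyQ) f → ∑ w, invFQ w (RQ.rs (stb (HP.PP P w)) f) + (f c c + f 1 1) = 0) ∧
        KDatF D κ T (HP.PP P) inv invF θ φ m v ∧
        (∀ (w : Option T) (f : (AlgebraicClosure K ≃+* AlgebraicClosure K) →
          (AlgebraicClosure K ≃+* AlgebraicClosure K) → A0),
          invF w (fun a b => f (iK K (a : AbsGal K)) (iK K (b : AbsGal K))) =
            invFQ (RQ.incl Finset.subset_union_left w) (fun a b => f a b)) ∧
        (∀ p ∈ D.primeFactors, iK K (θ p) * c ∈ inr (P p)) ∧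
        HypP (fullK (K := K) T) N₀ C (fun w : Option T => fullD (stabD (HP.PP P w)))
          (fun w => (stabD (HP.PP P w)).subtype) cyc invF κ
          {p | ∃ n ∈ D.primeFactors, p = (θ n, φ n)} (fun w => if w = none then 1 else 0) ∧
        ∃ tr, QS.KQ.{u, v} (big (fullK (K := K) T) N₀)
          (D := fun w : Option T => stabD (HP.PP P w))
          (fun w => big (fullD (stabD (HP.PP P w))) (N₀.comap (stabD (HP.PP P w)).subtype))
          (fun w => (stabD (HP.PP P w)).subtype) cyc invF κ (big (KS.sQ K T D) (N₀.map (iK K)))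
          (E := fun q : Option D.primeFactors => HQ c P (plQ T D q))
          (fun q => SQ c P (N₀.map (iK K)) (plQ T D q)) (fun q => GA.jQ c P (plQ T D q)) cyQ
          (fun q => iQ c P invFQ (plQ T D q)) (iK K) c (InQ c T D P) tr := by
  have halg := HP.alg_closure K
  have hne := exists_conj_ne hK hc
  have hNn : N₀.Normal := (fullK (K := K) T₀).normal hN
  have hNo : KR.Opn (fullK (K := K) T₀) N₀ := ⟨N₀, hN, le_rfl⟩
  obtain ⟨C, hC⟩ := KR.exists_syl hNn hNo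
  obtain ⟨T₁, h1, h2, h3⟩ := RQ.exists_hypP hK hc hκ hT₀ hC kN
  -- over the rational numbers
  have hNQn : (N₀.map (iK K)).Normal := map_normal hK hc hκ hNn kN
  have hNQo : KR.Opn (KS.sQ K T₀ D) (N₀.map (iK K)) := by
    obtain ⟨W, hW, h4⟩ := KS.push hK hc hκ hN
    refine ⟨W, hW, fun w hw => ?_⟩
    obtain ⟨n, hn, rfl⟩ := h4 w hw
    exact ⟨n, hn, rfl⟩
  obtain ⟨C', hC'⟩ := KR.exists_syl hNQn hNQo
  have hfC : Finite ((AlgebraicClosure K ≃+* AlgebraicClosure K) ⧸ C') := KR.syl_finite hC'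
  have := Fintype.ofFinite ((AlgebraicClosure K ≃+* AlgebraicClosure K) ⧸ C')
  obtain ⟨T₂, h4, h5⟩ := GA.exists_datQ halg hc.sq hne hK (RingEquiv.refl (AlgebraicClosure K)) hC'
    (by
      rintro _ ⟨n, -, rfl⟩
      exact ⟨n, rfl⟩)
  refine ⟨C, T₁ ∪ T₂, h1.trans Finset.subset_union_left, fun l hl => ?_, fun T hT hs P hP => ?_⟩
  · rcases Finset.mem_union.1 hl with h | h
    · exact h2 l h
    · exact h4 l h
  have hT1 : T₁ ⊆ T := Finset.subset_union_left.trans hT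
  have hT2 : T₂ ⊆ T := Finset.subset_union_right.trans hT
  obtain ⟨invQ, invFQ, inv, invF, θ, φ, m, v, hQ, hFQ, hrec, hKD, hrel, hθ⟩ :=
    RQ.exists_KQ' hK hc hκ hs hP
  have hG : ∀ w, GP.LocH (HP.fsys (stb (HP.PP P w)))
      (fun d : stb (HP.PP P w) => cyQ (d : AlgebraicClosure K ≃+* AlgebraicClosure K)) (invQ w) :=
    fun w => hQ.loc w
  have hDat := h5 (T ∪ D.primeFactors) (Finset.union_subset_union (h1.trans hT1) le_rfl)
    (hT2.trans Finset.subset_union_left)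
    (fun p hp hd => Finset.mem_union_right _ (Nat.mem_primeFactors.2 ⟨hp, hd, hK.sqf.ne_zero⟩))
    P hP invQ invFQ hG hFQ hrec
  obtain ⟨tr, htr⟩ := hq_K.{u, v} hK hc hs hP hG hFQ hDat hrel
  exact ⟨invQ, invFQ, inv, invF, θ, φ, m, v, hQ, hFQ, hrec, hKD, hrel, hθ,
    h3 T hT1 hs P (isP_left hP) inv invF θ φ m v hKD, tr,
    kq_K hK hc hκ hs hP (fun p hp => ⟨θ p, hθ p hp⟩) kN htr⟩

end Pool.Agent.Work.MP_787500_nt.QF
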