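import Mathlib
import Pool.Agent.Work.MP_787500_nt.QF.Glob4
import Pool.Agent.Work.MP_787500_nt.QL.LagR
import Pool.Agent.Work.MP_787500_nt.QL.RamQ
import Pool.Agent.Work.MP_787500_nt.QS.KQ3
import Pool.Agent.Work.MP_787500_nt.QS.NumF
import Pool.Agent.Work.MP_787500_nt.QS.InfR

/-!
The local conditions and the local numbers at the places of the rational numbers that do not split.
-/

set_option autoImplicit false
set_option linter.unusedSectionVars false

namespace Pool.Agent.Work.MP_787500_nt.QF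

open Matrix NumberField
open Pool.Agent.Work.MP_787500_nt.PA (cyc toE)
open Pool.Agent.Work.MP_787500_nt.GP
open Pool.Agent.Work.MP_787500_nt.KR (FSys big fullK fullQ fullC fullD ParD SDualF Betw selM perpM
  LocRep mnP_surj actN_mnP actN_mnI sdualF_MN)
open Pool.Agent.Work.MP_787500_nt.HP (IsQ Spl IsP cyQ stb emb inr Alg QDat)
open Pool.Agent.Work.MP_787500_nt.GA (HQ SQ iQ DatQ)
open Pool.Agent.Work.MP_787500_nt.RQ (LocF KDatF)
open Pool.Agent.Work.MP_787500_nt.KS (iK)

universe u v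

variable {K : Type u} [Field K] [NumberField K] {D : ℕ} {s : K}
  {c : AlgebraicClosure K ≃+* AlgebraicClosure K} {κ : AbsGal K →* AbsGal K} {T : Finset ℕ}
  {P : ℕ → Ideal (𝓞 (AlgebraicClosure K))} {N₀ : Subgroup (AbsGal K)}
  {inv invF : ∀ w : Option T, (stabD (HP.PP P w) → stabD (HP.PP P w) → A0) → A0}
  {invFQ : ∀ w : Option (T ∪ D.primeFactors : Finset ℕ),
    (stb (HP.PP P w) → stb (HP.PP P w) → A0) → A0}
  {θ φ : ℕ → AbsGal K}
  {tr : (((AlgebraicClosure K ≃+* AlgebraicClosure K) → (AlgebraicClosure K ≃+* AlgebraicClosure K) →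
    (AlgebraicClosure K ≃+* AlgebraicClosure K) → A0) ×
    (∀ i, QS.gQ (fun w : Option T => stabD (HP.PP P w))
        (fun q : Option D.primeFactors => HQ c P (plQ T D q)) i →
      QS.gQ (fun w : Option T => stabD (HP.PP P w))
        (fun q : Option D.primeFactors => HQ c P (plQ T D q)) i → A0)) →+ A0}

theorem lag_F (hK : IsQ K D s) (hP : IsP (T ∪ D.primeFactors) P)
    (hθ : ∀ p ∈ D.primeFactors, iK K (θ p) * c ∈ inr (P p))
    (H : ParD.{v} (big (fullK (K := K) T) N₀)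
      (fun w : Option T => big (fullD (stabD (HP.PP P w)))
        (N₀.comap (stabD (HP.PP P w)).subtype))
      (fun w => (stabD (HP.PP P w)).subtype) cyc invF κ
      {p | ∃ n ∈ D.primeFactors, p = (θ n, φ n)})
    (Q : QS.KQ.{u, v} (big (fullK (K := K) T) N₀)
      (D := fun w : Option T => stabD (HP.PP P w))
      (fun w => big (fullD (stabD (HP.PP P w))) (N₀.comap (stabD (HP.PP P w)).subtype))
      (fun w => (stabD (HP.PP P w)).subtype) cyc invF κ (big (KS.sQ K T D) (N₀.map (iK K)))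
      (E := fun q : Option D.primeFactors => HQ c P (plQ T D q))
      (fun q => SQ c P (N₀.map (iK K)) (plQ T D q)) (fun q => GA.jQ c P (plQ T D q)) cyQ
      (fun q => iQ c P invFQ (plQ T D q)) (iK K) c (InQ c T D P) tr)
    {E : Type v} [NormedField E] [NormedAlgebra ℚ_[2] E] [FiniteDimensional ℚ_[2] E]
    [IsLocalRing (OE E)] {n : ℕ} {ρ : AbsGal K →* Matrix (Fin n) (Fin n) E}
    {b : Matrix (Fin n) (Fin n) E} {l : OE E} {t : E →ₗ[ℚ_[2]] ℚ_[2]}
    {L : Submodule (OE E) (Fin n → E)} (hlat : Lat b l t L)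
    (hr : LocRep (big (fullK (K := K) T) N₀) cyc L b (fun g => ρ g) (fun g => ρ (κ g)))
    (hal : ∀ p ∈ {p : AbsGal K × AbsGal K | ∃ n ∈ D.primeFactors, p = (θ n, φ n)},
        ∀ x : Fin n → E, bil b x (ρ p.1 *ᵥ x) = 0) (N : ℕ) (p : D.primeFactors) :
    QS.LagR Q.two (SQ c P (N₀.map (iK K)) (plQ T D (some p))) (GA.jQ c P (plQ T D (some p)))
      (iQ c P invFQ (plQ T D (some p))) (InQ c T D P (some p))
      (sdualF_MN (ρ := fun g => ρ g) hlat hr hal N).act
      (sdualF_MN (ρ := fun g => ρ g) hlat hr hal N).lin (bN hlat N) := by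
  have hfin : ∀ N, Finite (MN L l N) := fun N => MN_finite hlat N
  exact QL.lagR_F (p := (some p : Option D.primeFactors)) Q H.ksys
    (sdualF_MN (ρ := fun g => ρ g) hlat hr hal N) (θ := θ p) (φ := φ p) ⟨p, p.2, rfl⟩
    (QL.ramF_Q (RingEquiv.refl (AlgebraicClosure K)) (HP.alg_closure K) hK p.2
      (hP.isPrime p (Or.inl (Finset.mem_union_right _ p.2)))
      (hP.mem p (Or.inl (Finset.mem_union_right _ p.2))) _ (hθ p p.2))

theorem lag_I (hc : ∀ x, c (c x) = x)
    (H : ParD.{v} (big (fullK (K := K) T) N₀)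
      (fun w : Option T => big (fullD (stabD (HP.PP P w)))
        (N₀.comap (stabD (HP.PP P w)).subtype))
      (fun w => (stabD (HP.PP P w)).subtype) cyc invF κ
      {p | ∃ n ∈ D.primeFactors, p = (θ n, φ n)})
    (Q : QS.KQ.{u, v} (big (fullK (K := K) T) N₀)
      (D := fun w : Option T => stabD (HP.PP P w))
      (fun w => big (fullD (stabD (HP.PP P w))) (N₀.comap (stabD (HP.PP P w)).subtype))
      (fun w => (stabD (HP.PP P w)).subtype) cyc invF κ (big (KS.sQ K T D) (N₀.map (iK K)))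
      (E := fun q : Option D.primeFactors => HQ c P (plQ T D q))
      (fun q => SQ c P (N₀.map (iK K)) (plQ T D q)) (fun q => GA.jQ c P (plQ T D q)) cyQ
      (fun q => iQ c P invFQ (plQ T D q)) (iK K) c (InQ c T D P) tr)
    {E : Type v} [NormedField E] [NormedAlgebra ℚ_[2] E] [FiniteDimensional ℚ_[2] E]
    [IsLocalRing (OE E)] {n : ℕ} {ρ : AbsGal K →* Matrix (Fin n) (Fin n) E}
    {b : Matrix (Fin n) (Fin n) E} {l : OE E} {t : E →ₗ[ℚ_[2]] ℚ_[2]}
    {L : Submodule (OE E) (Fin n → E)} (hlat : Lat b l t L)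
    (hr : LocRep (big (fullK (K := K) T) N₀) cyc L b (fun g => ρ g) (fun g => ρ (κ g)))
    (hal : ∀ p ∈ {p : AbsGal K × AbsGal K | ∃ n ∈ D.primeFactors, p = (θ n, φ n)},
        ∀ x : Fin n → E, bil b x (ρ p.1 *ᵥ x) = 0) (N : ℕ) :
    QS.LagR Q.two (SQ c P (N₀.map (iK K)) (plQ T D none)) (GA.jQ c P (plQ T D none))
      (iQ c P invFQ (plQ T D none)) (InQ c T D P none)
      (sdualF_MN (ρ := fun g => ρ g) hlat hr hal N).act
      (sdualF_MN (ρ := fun g => ρ g) hlat hr hal N).lin (bN hlat N) := by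
  have hfin : ∀ N, Finite (MN L l N) := fun N => MN_finite hlat N
  exact QL.lagR_I (p := (none : Option D.primeFactors)) Q H.ksys
    (sdualF_MN (ρ := fun g => ρ g) hlat hr hal N)
    (QL.ramI_Q hc fun d hd => absurd hd (Set.notMem_empty d))

theorem num_F (hK : IsQ K D s) (hP : IsP (T ∪ D.primeFactors) P)
    (hθ : ∀ p ∈ D.primeFactors, iK K (θ p) * c ∈ inr (P p))
    (H : ParD.{v} (big (fullK (K := K) T) N₀)
      (fun w : Option T => big (fullD (stabD (HP.PP P w)))
        (N₀.comap (stabD (HP.PP P w)).subtype))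
      (fun w => (stabD (HP.PP P w)).subtype) cyc invF κ
      {p | ∃ n ∈ D.primeFactors, p = (θ n, φ n)})
    (Q : QS.KQ.{u, v} (big (fullK (K := K) T) N₀)
      (D := fun w : Option T => stabD (HP.PP P w))
      (fun w => big (fullD (stabD (HP.PP P w))) (N₀.comap (stabD (HP.PP P w)).subtype))
      (fun w => (stabD (HP.PP P w)).subtype) cyc invF κ (big (KS.sQ K T D) (N₀.map (iK K)))
      (E := fun q : Option D.primeFactors => HQ c P (plQ T D q))
      (fun q => SQ c P (N₀.map (iK K)) (plQ T D q)) (fun q => GA.jQ c P (plQ T D q)) cyQ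
      (fun q => iQ c P invFQ (plQ T D q)) (iK K) c (InQ c T D P) tr)
    {E : Type v} [NormedField E] [NormedAlgebra ℚ_[2] E] [FiniteDimensional ℚ_[2] E]
    [IsLocalRing (OE E)] {n : ℕ} {ρ : AbsGal K →* Matrix (Fin n) (Fin n) E}
    {b : Matrix (Fin n) (Fin n) E} {l : OE E} {t : E →ₗ[ℚ_[2]] ℚ_[2]}
    {L : Submodule (OE E) (Fin n → E)} (hlat : Lat b l t L)
    (hr : LocRep (big (fullK (K := K) T) N₀) cyc L b (fun g => ρ g) (fun g => ρ (κ g)))
    (hal : ∀ p ∈ {p : AbsGal K × AbsGal K | ∃ n ∈ D.primeFactors, p = (θ n, φ n)},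
        ∀ x : Fin n → E, bil b x (ρ p.1 *ᵥ x) = 0) (N : ℕ) (p : D.primeFactors) :
    QS.NumN (ρ := fun g => ρ g) Q.two H hlat hr hal N (SQ c P (N₀.map (iK K)) (plQ T D (some p)))
        (GA.jQ c P (plQ T D (some p))) (InQ c T D P (some p)) :=
  QS.numN_ram Q H hlat hr hal N (some p)
    (QL.ramF_Q (RingEquiv.refl (AlgebraicClosure K)) (HP.alg_closure K) hK p.2
      (hP.isPrime p (Or.inl (Finset.mem_union_right _ p.2)))
      (hP.mem p (Or.inl (Finset.mem_union_right _ p.2))) _ (hθ p p.2))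

theorem num_I (hc : ∀ x, c (c x) = x)
    (H : ParD.{v} (big (fullK (K := K) T) N₀)
      (fun w : Option T => big (fullD (stabD (HP.PP P w)))
        (N₀.comap (stabD (HP.PP P w)).subtype))
      (fun w => (stabD (HP.PP P w)).subtype) cyc invF κ
      {p | ∃ n ∈ D.primeFactors, p = (θ n, φ n)})
    (Q : QS.KQ.{u, v} (big (fullK (K := K) T) N₀)
      (D := fun w : Option T => stabD (HP.PP P w))
      (fun w => big (fullD (stabD (HP.PP P w))) (N₀.comap (stabD (HP.PP P w)).subtype))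
      (fun w => (stabD (HP.PP P w)).subtype) cyc invF κ (big (KS.sQ K T D) (N₀.map (iK K)))
      (E := fun q : Option D.primeFactors => HQ c P (plQ T D q))
      (fun q => SQ c P (N₀.map (iK K)) (plQ T D q)) (fun q => GA.jQ c P (plQ T D q)) cyQ
      (fun q => iQ c P invFQ (plQ T D q)) (iK K) c (InQ c T D P) tr)
    {E : Type v} [NormedField E] [NormedAlgebra ℚ_[2] E] [FiniteDimensional ℚ_[2] E]
    [IsLocalRing (OE E)] {n : ℕ} {ρ : AbsGal K →* Matrix (Fin n) (Fin n) E}
    {b : Matrix (Fin n) (Fin n) E} {l : OE E} {t : E →ₗ[ℚ_[2]] ℚ_[2]}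
    {L : Submodule (OE E) (Fin n → E)} (hlat : Lat b l t L)
    (hr : LocRep (big (fullK (K := K) T) N₀) cyc L b (fun g => ρ g) (fun g => ρ (κ g)))
    (hal : ∀ p ∈ {p : AbsGal K × AbsGal K | ∃ n ∈ D.primeFactors, p = (θ n, φ n)},
        ∀ x : Fin n → E, bil b x (ρ p.1 *ᵥ x) = 0) (N : ℕ) :
    QS.NumN (ρ := fun g => ρ g) Q.two H hlat hr hal N (SQ c P (N₀.map (iK K)) (plQ T D none))
        (GA.jQ c P (plQ T D none)) (InQ c T D P none) := by
  have hfin : ∀ N, Finite (MN L l N) := fun N => MN_finite hlat N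
  have hrf : Finite (IsLocalRing.ResidueField (OE E)) := res_finite
  have hinf : ∀ d : Subgroup.zpowers c, d = 1 ∨ (d : AlgebraicClosure K ≃+* AlgebraicClosure K) = c :=
    fun d => (GA.zpowers_two hc d).imp id fun h => by rw [h]
  unfold QS.NumN
  refine QS.numR_inf Q.two hinf ?_ ?_ ?_ _ _ _ _ _ _ _ ?_
  · exact mnP_surj hlat.lne 1 rfl
  · exact fun g x => actN_mnP hr.st 1 _ g x
  · exact fun g x => actN_mnI hr.st _ g x
  · exact ((QL.qm_Q Q H.ksys (sdualF_MN (ρ := fun g => ρ g) hlat hr hal (N + 2))).sm.comp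
      (Q.glob.glob.jsm (.inr none)))

end Pool.Agent.Work.MP_787500_nt.QF
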