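import Mathlib
import Pool.Agent.Work.MP_787500_nt.QF.Num
import Pool.Agent.Work.MP_787500_nt.QL.LagR
import Pool.Agent.Work.MP_787500_nt.QL.RamQ
import Pool.Agent.Work.MP_787500_nt.QS.HfpQ
import Pool.Agent.Work.MP_787500_nt.QS.InfR
import Pool.Agent.Work.MP_787500_nt.KR.L20
import Pool.Agent.Work.MP_787500_nt.KR.BigK
import Pool.Agent.Work.MP_787500_nt.HP.UrArith
import Pool.Agent.Work.MP_787500_nt.GP.L03_Ring

/-!
The parity formula from the parity at the level 1 (the module killed by the uniformizer).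
-/

set_option autoImplicit false
set_option linter.unusedSectionVars false

namespace Pool.Agent.Work.MP_787500_nt.QF

open Matrix NumberField
open Pool.Agent.Work.MP_787500_nt.PA (cyc toE)
open Pool.Agent.Work.MP_787500_nt.GP
open Pool.Agent.Work.MP_787500_nt.KR (FSys big fullK fullQ fullC fullD ParD SDualF Betw selM perpM
  LocRep mnP_surj actN_mnP actN_mnI sdualF_MN)
open Pool.Agent.Work.MP_787500_nt.HP (IsQ Spl IsP cyQ stb emb inr Alg QDat)
open Pool.Agent.Work.MP_787500_nt.GA (HQ SQ iQ DatQ)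
open Pool.Agent.Work.MP_787500_nt.RQ (LocF KDatF)
open Pool.Agent.Work.MP_787500_nt.KS (iK)

universe u v

variable {K : Type u} [Field K] [NumberField K] {D : ℕ} {s : K}
  {c : AlgebraicClosure K ≃+* AlgebraicClosure K} {κ : AbsGal K →* AbsGal K} {T : Finset ℕ}
  {P : ℕ → Ideal (𝓞 (AlgebraicClosure K))} {N₀ : Subgroup (AbsGal K)}
  {inv invF : ∀ w : Option T, (stabD (HP.PP P w) → stabD (HP.PP P w) → A0) → A0}
  {invFQ : ∀ w : Option (T ∪ D.primeFactors : Finset ℕ),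
    (stb (HP.PP P w) → stb (HP.PP P w) → A0) → A0}
  {θ φ : ℕ → AbsGal K} {m : ℕ → ℤ} {w : ℕ → ℤ_[2]}
  {tr : (((AlgebraicClosure K ≃+* AlgebraicClosure K) → (AlgebraicClosure K ≃+* AlgebraicClosure K) →
    (AlgebraicClosure K ≃+* AlgebraicClosure K) → A0) ×
    (∀ i, QS.gQ (fun w : Option T => stabD (HP.PP P w))
        (fun q : Option D.primeFactors => HQ c P (plQ T D q)) i →
      QS.gQ (fun w : Option T => stabD (HP.PP P w))
        (fun q : Option D.primeFactors => HQ c P (plQ T D q)) i → A0)) →+ A0}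

theorem parity_fin (hK : IsQ K D s) (hc : PA.IsConj s c)
    (hκ : ∀ (σ : AbsGal K) (x : AlgebraicClosure K), κ σ x = c (σ (c x)))
    (hT : ∀ l ∈ T, Spl D l) (hP : IsP (T ∪ D.primeFactors) P)
    (hNn : N₀.Normal) (hNo : IsOpen (N₀ : Set (AbsGal K))) (hκN : ∀ s ∈ N₀, κ s ∈ N₀)
    (hNI : ∀ σ ∈ inT K T, σ ∈ N₀) (hKD : KDatF D κ T (HP.PP P) inv invF θ φ m w)
    (hθ : ∀ p ∈ D.primeFactors, iK K (θ p) * c ∈ inr (P p))
    (H : ParD.{v} (big (fullK (K := K) T) N₀)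
      (fun w : Option T => big (fullD (stabD (HP.PP P w)))
        (N₀.comap (stabD (HP.PP P w)).subtype))
      (fun w => (stabD (HP.PP P w)).subtype) cyc invF κ
      {p | ∃ n ∈ D.primeFactors, p = (θ n, φ n)})
    (Q : QS.KQ.{u, v} (big (fullK (K := K) T) N₀)
      (D := fun w : Option T => stabD (HP.PP P w))
      (fun w => big (fullD (stabD (HP.PP P w))) (N₀.comap (stabD (HP.PP P w)).subtype))
      (fun w => (stabD (HP.PP P w)).subtype) cyc invF κ (big (KS.sQ K T D) (N₀.map (iK K)))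
      (E := fun q : Option D.primeFactors => HQ c P (plQ T D q))
      (fun q => SQ c P (N₀.map (iK K)) (plQ T D q)) (fun q => GA.jQ c P (plQ T D q)) cyQ
      (fun q => iQ c P invFQ (plQ T D q)) (iK K) c (InQ c T D P) tr)
    {E : Type v} [NormedField E] [NormedAlgebra ℚ_[2] E] [FiniteDimensional ℚ_[2] E]
    [IsLocalRing (OE E)] {n : ℕ} {ρ : AbsGal K →* Matrix (Fin n) (Fin n) E}
    {b : Matrix (Fin n) (Fin n) E} (hb : b.det ≠ 0)
    (hρ : Gn.ConjDual 2 N₀ (inT K T) (fun g => toE E (cyc g)) κ ρ b)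
    {l : OE E} {t : E →ₗ[ℚ_[2]] ℚ_[2]} {L : Submodule (OE E) (Fin n → E)} (hlat : Lat b l t L)
    (hst : ∀ g, ∀ x ∈ L, ρ g *ᵥ x ∈ L)
    (hP1 : (∀ p ∈ D.primeFactors, ∀ x : Fin n → E, bil b x (ρ (θ p) *ᵥ x) = 0) →
      ∀ h₁ : SDualF (big (fullK (K := K) T) N₀) cyc κ
        {p | ∃ n ∈ D.primeFactors, p = (θ n, φ n)} (OE E) (actN l 1 (fun g => ρ g) hst) (bN hlat 1),
      ∃ Λ₀ : ∀ w : Option T, Submodule (OE E) (stabD (HP.PP P w) → MN L l 1),
        (∀ w : Option T, Betw (big (fullD (stabD (HP.PP P w)))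
          (N₀.comap (stabD (HP.PP P w)).subtype))
          (fun d => actN l 1 (fun g => ρ g) hst ((stabD (HP.PP P w)).subtype d)) (Λ₀ w)) ∧
        EvPow (Nat.card (IsLocalRing.ResidueField (OE E)))
          (Nat.card (selM h₁ (fun w : Option T => (stabD (HP.PP P w)).subtype) Λ₀
            fun w => perpM H h₁ w (Λ₀ w)) * ∏ w, Nat.card (Λ₀ w))) :
    Parity.ParityFormula (inT K T) (fun g => toE E (cyc g)) κ ρ b
      (fun w : Option T => stabD (HP.PP P w)) := by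
  have hκc : Continuous κ := PA.kappa_continuous hc.sq hκ
  have hB : Gn.Base N₀ (inT K T) := KR.base_K hNn hNo hNI
  have hS := KR.isBig_K T N₀
  have hr : LocRep (big (fullK (K := K) T) N₀) cyc L b (fun g => ρ g) (fun g => ρ (κ g)) :=
    KR.locRep_glob hB hS H.ksys hρ hst
  have hχΘ : ∀ p ∈ {p : AbsGal K × AbsGal K | ∃ n ∈ D.primeFactors, p = (θ n, φ n)},
      cyc p.1 = -1 := by
    rintro _ ⟨n, hn, rfl⟩
    exact hKD.tht n hn
  obtain ⟨-, hal⟩ := KR.alt_glob hB hS H.tk hχΘ hρ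
  have h₁ := sdualF_MN (ρ := fun g => ρ g) hlat hr hal 1
  refine (hP1 (fun p hp => hal (θ p, φ p) ⟨p, hp, rfl⟩) h₁).elim fun Λ₀ h0 => ?_
  refine KR.final_gen hB (HP.basis_K K) hS (fun w => stabD_closed _)
    (fun w => KR.isBig_D N₀ (stabD_closed _)) hκc hκN H hχΘ hb hρ hlat hst fun N h Λ hΛ => ?_
  refine QS.hfp_Q Q H hlat hst hr hal (fun N q => ?_) (fun N q => ?_) h0.1 h₁ h0.2 N h Λ hΛ
  · exact Option.rec (motive := fun q => QS.LagR Q.two (SQ c P (N₀.map (iK K)) (plQ T D q))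
      (GA.jQ c P (plQ T D q)) (iQ c P invFQ (plQ T D q)) (InQ c T D P q)
      (sdualF_MN (ρ := fun g => ρ g) hlat hr hal N).act
      (sdualF_MN (ρ := fun g => ρ g) hlat hr hal N).lin (bN hlat N))
      (lag_I hc.sq H Q hlat hr hal N) (lag_F hK hP hθ H Q hlat hr hal N) q
  · exact Option.rec (motive := fun q => QS.NumN (ρ := fun g => ρ g) Q.two H hlat hr hal N
      (SQ c P (N₀.map (iK K)) (plQ T D q)) (GA.jQ c P (plQ T D q)) (InQ c T D P q))
      (num_I hc.sq H Q hlat hr hal N) (num_F hK hP hθ H Q hlat hr hal N) q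

end Pool.Agent.Work.MP_787500_nt.QF
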