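import Mathlib
import Pool.Agent.Work.MP_787500_nt.GP.LDefs

/-!
An involution of the module at the level 1 from a matrix that is an involution modulo the uniformizer and
exchanges a representation and its twist.
-/

set_option autoImplicit false
set_option linter.unusedSectionVars false

namespace Pool.Agent.Work.MP_787500_nt.QF

open Matrix
open Pool.Agent.Work.MP_787500_nt.GP

variable {E : Type*} [NormedField E] [NormedAlgebra ℚ_[2] E] {n : ℕ} {G : Type*}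

/-- `C` preserves the lattice `L`, `C²` and `C ρ (κ g) (ρ g C)⁻¹` are scalars congruent to 1 modulo the
maximal ideal, and `b (x, C x) = 0`. -/
structure MatC (b : Matrix (Fin n) (Fin n) E) (L : Submodule (OE E) (Fin n → E)) (κ : G → G)
    (ρ : G → Matrix (Fin n) (Fin n) E) (C : Matrix (Fin n) (Fin n) E) : Prop where
  st : ∀ x ∈ L, C *ᵥ x ∈ L
  sq : ∃ u : E, ‖u - 1‖ < 1 ∧ C * C = u • (1 : Matrix (Fin n) (Fin n) E)
  com : ∀ g, ∃ u : E, ‖u - 1‖ < 1 ∧ C * ρ (κ g) = u • (ρ g * C)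
  alt : ∀ x, bil b x (C *ᵥ x) = 0

variable {b : Matrix (Fin n) (Fin n) E} {l : OE E} {t : E →ₗ[ℚ_[2]] ℚ_[2]}
  {L : Submodule (OE E) (Fin n → E)} {κ : G → G} {ρ : G → Matrix (Fin n) (Fin n) E}
  {C : Matrix (Fin n) (Fin n) E}

/-- scalars congruent to 1 act trivially at the level 1 -/
theorem mq_scal (h : Lat b l t L) {u : E} (hu : ‖u - 1‖ < 1) {x : Fin n → E}
    (hx : (l : E) • x ∈ L) : mq L (u • x) = mq L x := by
  rw [mq_eq]
  have h1 : u • x - x = ((u - 1) * (l : E)⁻¹) • ((l : E) • x) := by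
    rw [smul_smul, mul_assoc, inv_mul_cancel₀ h.lne, mul_one, sub_smul, one_smul]
  rw [h1]
  have h2 : ‖(u - 1) * (l : E)⁻¹‖ ≤ 1 := by
    rw [norm_mul, norm_inv, ← div_eq_mul_inv, div_le_one (norm_pos_iff.2 h.lne)]
    exact h.lmax _ hu
  exact L.smul_mem (⟨(u - 1) * (l : E)⁻¹, h2⟩ : OE E) hx

theorem lft_one (m : MN L l 1) : (l : E) • lft (m : Wq L) ∈ L := by
  have h := m.lft_mem
  rwa [pow_one] at h

/-- the involution at the level 1 -/
theorem MatC.exists_C1 (h : Lat b l t L) (hst : ∀ g, ∀ x ∈ L, ρ g *ᵥ x ∈ L)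
    (hC : MatC b L κ ρ C) : ∃ C₁ : MN L l 1 →ₗ[OE E] MN L l 1, (∀ m, C₁ (C₁ m) = m) ∧
      (∀ g m, C₁ (actN l 1 ρ hst (κ g) m) = actN l 1 ρ hst g (C₁ m)) ∧
      (∀ (a : OE E) m, bN h 1 (a • m) (C₁ m) = 0) ∧
      ∀ g (u : E), ‖u - 1‖ < 1 → ρ g * C = u • (1 : Matrix (Fin n) (Fin n) E) →
        ∀ m, actN l 1 ρ hst g (C₁ m) = m := by
  have hst' : ∀ d : Unit, ∀ x ∈ L, (fun _ : Unit => C) d *ᵥ x ∈ L := fun _ => hC.st
  have hval : ∀ m : MN L l 1, (actN l 1 (fun _ : Unit => C) hst' () m : Wq L) =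
      mq L (C *ᵥ lft (m : Wq L)) := fun _ => rfl
  have hmq : ∀ {A : Matrix (Fin n) (Fin n) E}, (∀ x ∈ L, A *ᵥ x ∈ L) → ∀ x,
      actQ L A (mq L x) = mq L (A *ᵥ x) := fun hA x => actQ_mq hA x
  refine ⟨{ toFun := actN l 1 (fun _ : Unit => C) hst' ()
            map_add' := fun x y => Subtype.ext ?_
            map_smul' := fun a x => Subtype.ext ?_ }, fun m => Subtype.ext ?_,
      fun g m => Subtype.ext ?_, fun a m => ?_, fun g u hu hg m => Subtype.ext ?_⟩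
  · show actQ L C ((x : Wq L) + (y : Wq L)) = actQ L C (x : Wq L) + actQ L C (y : Wq L)
    rw [← mq_lft (x : Wq L), ← mq_lft (y : Wq L), ← mq_add, hmq hC.st, hmq hC.st, hmq hC.st,
      mulVec_add, mq_add]
  · show actQ L C (a • (x : Wq L)) = a • actQ L C (x : Wq L)
    rw [← mq_lft (x : Wq L), ← mq_smul, hmq hC.st, hmq hC.st, mulVec_smul, mq_smul]
  · show actQ L C (actQ L C (m : Wq L)) = (m : Wq L)
    obtain ⟨u, hu, hCC⟩ := hC.sq
    conv_lhs => rw [← mq_lft (m : Wq L)]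
    rw [hmq hC.st, hmq hC.st, mulVec_mulVec, hCC, smul_mulVec, one_mulVec,
      mq_scal h hu (lft_one m), mq_lft]
  · show actQ L C (actQ L (ρ (κ g)) (m : Wq L)) = actQ L (ρ g) (actQ L C (m : Wq L))
    obtain ⟨u, hu, hCC⟩ := hC.com g
    rw [← mq_lft (m : Wq L), hmq (hst (κ g)), hmq hC.st, hmq hC.st, hmq (hst g), mulVec_mulVec, hCC,
      smul_mulVec, mulVec_mulVec]
    refine mq_scal h hu ?_
    rw [← mulVec_smul, ← mulVec_mulVec]
    exact hst g _ (hC.st _ (lft_one m))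
  · show bN h 1 (a • m) (actN l 1 (fun _ : Unit => C) hst' () m) = 0
    rw [bN_val h 1 (a • m) _ (x' := (a : E) • lft (m : Wq L)) (y' := C *ᵥ lft (m : Wq L)),
      bil_smul_left, hC.alt, mul_zero, mul_zero, map_zero, map_zero]
    · rw [mq_smul, mq_lft]
      rfl
    · exact (hval m).symm
  · show actQ L (ρ g) (actQ L C (m : Wq L)) = (m : Wq L)
    conv_lhs => rw [← mq_lft (m : Wq L)]
    rw [hmq hC.st, hmq (hst g), mulVec_mulVec, hg, smul_mulVec, one_mulVec,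
      mq_scal h hu (lft_one m), mq_lft]

end Pool.Agent.Work.MP_787500_nt.QF
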