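import Mathlib
import Pool.Agent.Work.MP_787500_nt.LA.Norm
import Pool.Agent.Work.MP_787500_nt.LA.FDefs

/-!
A normal subgroup `N₀` of finite index, stable under `κ`, on which a conjugate self-dual representation is
pro-2. There is no condition on the index.
-/

set_option autoImplicit false
set_option linter.unusedSectionVars false

namespace Pool.Agent.Work.MP_787500_nt.QF

open Matrix
open Pool.Agent.Work.MP_787500_nt.PA (toE)
open Pool.Agent.Work.MP_787500_nt.GP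
open Pool.Agent.Work.MP_787500_nt.KR (FSys IsFull Tri Syl Opn)
open Pool.Agent.Work.MP_787500_nt.LA (o2 o2_mem o2_two o2_normal le_o2 TwoMod pro_iff)

variable {G : Type*} [Group G] [TopologicalSpace G] [IsTopologicalGroup G] [CompactSpace G]
  {E : Type*} [NormedField E] [NormedAlgebra ℚ_[2] E] [FiniteDimensional ℚ_[2] E] {n : ℕ}
  {ρ : G →* Matrix (Fin n) (Fin n) E}

/-- the largest normal subgroup on which the representation is pro-2 -/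
theorem exists_n0 {F : FSys G} {I : Set G} (hF : IsFull I F) {χ : G → ℤ_[2]}
    (hχm : ∀ g h, χ (g * h) = χ g * χ h) (hχ1 : χ 1 = 1) (hχ : ∀ g, (2 : ℤ_[2]) ∣ χ g - 1)
    {κ : G →* G} (hκκ : ∀ g, κ (κ g) = g)
    {b : Matrix (Fin n) (Fin n) E} (hb : b.det ≠ 0)
    (hρ : Parity.IsDualRep I (fun g => toE E (χ g)) κ ρ b) :
    ∃ N₀ : Subgroup G, N₀.Normal ∧ F.mem N₀ ∧ IsOpen (N₀ : Set G) ∧ (∀ g ∈ N₀, κ g ∈ N₀) ∧
      (∀ σ ∈ I, σ ∈ N₀) ∧
      ∀ g ∈ N₀, Filter.Tendsto (fun k : ℕ => ρ (g ^ 2 ^ k)) Filter.atTop (nhds 1) := by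
  obtain ⟨l, hl0, hl1, hlm⟩ := exists_unif E
  have hsm : KR.SmallRep F (fun g => ρ g) := KR.small_full hF hρ.cont hρ.unram
  obtain ⟨T, hst, -, hbdd, hopn⟩ := KR.exists_lat0 hsm b
  have hpro : ∀ g, Filter.Tendsto (fun k : ℕ => ρ (g ^ 2 ^ k)) Filter.atTop (nhds 1) ↔
      ∃ k : ℕ, g ^ 2 ^ k ∈ KR.kerT T (l : E) ρ hst := fun g => pro_iff hl0 hl1 hlm hst hbdd hopn
  set W := KR.kerT T (l : E) ρ hst with hW
  have hWn : W.Normal := KR.kerT_normal hst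
  have hWo : IsOpen (W : Set G) := KR.kerT_open hl0 hρ.cont hst hbdd hopn
  have hWI : ∀ σ ∈ I, σ ∈ W := KR.kerT_inertia hst hρ.unram
  have hWle : W ≤ o2 W := le_o2 hWn fun a ha => ⟨0, by rwa [pow_zero, pow_one]⟩
  -- stability under `κ`
  have hdual : ∀ a, (∃ k : ℕ, κ a ^ 2 ^ k ∈ W) → ∃ k : ℕ, a ^ 2 ^ k ∈ W := by
    rintro a ⟨k, hk⟩
    rw [← hpro]
    have h1 : ∃ k : ℕ, (κ a)⁻¹ ^ 2 ^ k ∈ W := ⟨k, by
      rw [inv_pow]
      exact W.inv_mem hk⟩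
    rw [← hpro] at h1
    -- `ρ (a ^ 2 ^ k) = χ ((κ a) ^ 2 ^ k) • b⁻¹ (ρ ((κ a)⁻¹ ^ 2 ^ k))ᵀ b`
    have hbu : IsUnit b.det := isUnit_iff_ne_zero.2 hb
    have h2 : ∀ k : ℕ, ρ (a ^ 2 ^ k) =
        toE E (χ (κ a) ^ 2 ^ k) • (b⁻¹ * ((ρ ((κ a)⁻¹ ^ 2 ^ k))ᵀ * b)) := by
      intro k
      have h3 := hρ.dual (κ a ^ 2 ^ k)
      have hχp : ∀ (g : G) (i : ℕ), χ (g ^ i) = χ g ^ i := by
        intro g i
        induction i with
        | zero => rw [pow_zero, pow_zero, hχ1]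
        | succ i ih => rw [pow_succ, hχm, ih, pow_succ]
      rw [map_pow κ, hκκ, hχp] at h3
      have h4 : (ρ ((κ a)⁻¹ ^ 2 ^ k))ᵀ * (ρ (κ a ^ 2 ^ k))ᵀ = 1 := by
        rw [← transpose_mul, ← map_mul, inv_pow, mul_inv_cancel, map_one, transpose_one]
      have h5 : b * ρ (a ^ 2 ^ k) = toE E (χ (κ a) ^ 2 ^ k) • ((ρ ((κ a)⁻¹ ^ 2 ^ k))ᵀ * b) := by
        calc b * ρ (a ^ 2 ^ k) = (ρ ((κ a)⁻¹ ^ 2 ^ k))ᵀ * ((ρ (κ a ^ 2 ^ k))ᵀ * b * ρ (a ^ 2 ^ k)) := by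
              rw [← Matrix.mul_assoc, ← Matrix.mul_assoc, h4, Matrix.one_mul]
          _ = _ := by rw [h3, Matrix.mul_smul]
      calc ρ (a ^ 2 ^ k) = b⁻¹ * (b * ρ (a ^ 2 ^ k)) := by
            rw [← Matrix.mul_assoc, nonsing_inv_mul _ hbu, Matrix.one_mul]
        _ = _ := by rw [h5, Matrix.mul_smul]
    have h3 : Filter.Tendsto (fun k : ℕ => toE E (χ (κ a) ^ 2 ^ k)) Filter.atTop (nhds 1) := by
      rw [tendsto_iff_norm_sub_tendsto_zero]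
      have h4 : ∀ k : ℕ, ‖toE E (χ (κ a) ^ 2 ^ k) - 1‖ ≤ (1 / 2 : ℝ) ^ k := by
        intro k
        have h5 : toE E (χ (κ a) ^ 2 ^ k) - 1 = toE E (χ (κ a) ^ 2 ^ k - 1) := by
          have h51 := map_sub ((algebraMap ℚ_[2] E).comp PadicInt.Coe.ringHom) (χ (κ a) ^ 2 ^ k) 1
          rw [map_one] at h51
          exact h51.symm
        rw [h5]
        have h6 : ‖toE E (χ (κ a) ^ 2 ^ k - 1)‖ = ‖χ (κ a) ^ 2 ^ k - 1‖ := by
          show ‖algebraMap ℚ_[2] E ((χ (κ a) ^ 2 ^ k - 1 : ℤ_[2]) : ℚ_[2])‖ = _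
          rw [norm_algebraMap']
          rfl
        rw [h6]
        have h7 := (PadicInt.norm_le_pow_iff_mem_span_pow (χ (κ a) ^ 2 ^ k - 1) k).2 (by
          rw [Ideal.mem_span_singleton]
          exact_mod_cast LB.pow_two_one (hχ (κ a)) k)
        rw [_root_.zpow_neg, zpow_natCast, ← inv_pow] at h7
        rw [one_div]
        exact_mod_cast h7
      exact squeeze_zero (fun k => norm_nonneg _) h4
        (tendsto_pow_atTop_nhds_zero_of_lt_one (by norm_num) (by norm_num))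
    have h4 : Filter.Tendsto (fun k : ℕ => toE E (χ (κ a) ^ 2 ^ k) •
        (b⁻¹ * ((ρ ((κ a)⁻¹ ^ 2 ^ k))ᵀ * b))) Filter.atTop
        (nhds ((1 : E) • (b⁻¹ * ((1 : Matrix (Fin n) (Fin n) E)ᵀ * b)))) := by
      refine h3.smul ?_
      have h5 : Continuous fun M : Matrix (Fin n) (Fin n) E => b⁻¹ * (Mᵀ * b) := by fun_prop
      exact (h5.tendsto 1).comp h1
    rw [transpose_one, Matrix.one_mul, nonsing_inv_mul _ hbu, one_smul] at h4
    exact h4.congr fun k => (h2 k).symm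
  have hκo : ∀ g ∈ o2 W, κ g ∈ o2 W := by
    intro g hg
    have h1 : (o2 W).comap κ ≤ o2 W := by
      refine le_o2 ((o2_normal W).comap κ) fun a ha => ?_
      exact hdual a (o2_two W _ ha)
    refine h1 ?_
    show κ (κ g) ∈ o2 W
    rwa [hκκ]
  have hoo : IsOpen (o2 W : Set G) := Subgroup.isOpen_mono hWle hWo
  exact ⟨o2 W, o2_normal W, (hF _).2 ⟨o2_normal W, hoo, fun σ hσ => hWle (hWI σ hσ)⟩, hoo, hκo,
    fun σ hσ => hWle (hWI σ hσ), fun g hg => (hpro g).2 (o2_two W g hg)⟩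

end Pool.Agent.Work.MP_787500_nt.QF
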