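import Mathlib
import Pool.Agent.Work.MP_787500_nt.QF.Glob4
import Pool.Agent.Work.MP_787500_nt.QP.Level

/-!
Parity at the level 1.
-/

set_option autoImplicit false
set_option linter.unusedSectionVars false

namespace Pool.Agent.Work.MP_787500_nt.QF

open Matrix NumberField
open Pool.Agent.Work.MP_787500_nt.PA (cyc toE)
open Pool.Agent.Work.MP_787500_nt.GP
open Pool.Agent.Work.MP_787500_nt.KR (FSys big fullK fullQ fullC fullD ParD SDualF Betw selM perpM
  LocRep mnP_surj actN_mnP actN_mnI sdualF_MN)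
open Pool.Agent.Work.MP_787500_nt.HP (IsQ Spl IsP cyQ stb emb inr Alg QDat)
open Pool.Agent.Work.MP_787500_nt.GA (HQ SQ iQ DatQ)
open Pool.Agent.Work.MP_787500_nt.RQ (LocF KDatF)
open Pool.Agent.Work.MP_787500_nt.KS (iK)

universe u w

variable {K : Type u} [Field K] [NumberField K] {D : ℕ} {s : K}
  {c : AlgebraicClosure K ≃+* AlgebraicClosure K} {κ : AbsGal K →* AbsGal K} {T : Finset ℕ}
  {P : ℕ → Ideal (𝓞 (AlgebraicClosure K))} {N₀ : Subgroup (AbsGal K)}
  {inv invF : ∀ w : Option T, (stabD (HP.PP P w) → stabD (HP.PP P w) → A0) → A0}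
  {invQ invFQ : ∀ w : Option (T ∪ D.primeFactors : Finset ℕ),
    (stb (HP.PP P w) → stb (HP.PP P w) → A0) → A0}
  {θ φ : ℕ → AbsGal K} {m : ℕ → ℤ} {v : ℕ → ℤ_[2]}
  {tr : (((AlgebraicClosure K ≃+* AlgebraicClosure K) → (AlgebraicClosure K ≃+* AlgebraicClosure K) →
    (AlgebraicClosure K ≃+* AlgebraicClosure K) → A0) ×
    (∀ i, QS.gQ (fun w : Option T => stabD (HP.PP P w))
        (fun q : Option D.primeFactors => HQ c P (plQ T D q)) i →
      QS.gQ (fun w : Option T => stabD (HP.PP P w))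
        (fun q : Option D.primeFactors => HQ c P (plQ T D q)) i → A0)) →+ A0}

theorem one_K (hK : IsQ K D s) (hc : PA.IsConj s c)
    (hκ : ∀ (σ : AbsGal K) (x : AlgebraicClosure K), κ σ x = c (σ (c x)))
    (hT : ∀ l ∈ T, Spl D l) (hP : IsP (T ∪ D.primeFactors) P)
    (hNn : N₀.Normal) (hNo : IsOpen (N₀ : Set (AbsGal K))) (hκN : ∀ s ∈ N₀, κ s ∈ N₀)
    (hNI : ∀ σ ∈ inT K T, σ ∈ N₀)
    (hQ : QDat c (T ∪ D.primeFactors) P invQ)
    (hFQ : ∀ w, LocF (stb (HP.PP P w)) (invQ w) (invFQ w))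
    (hrec : ∀ f, KR.Z2 (RQ.ufull (AlgebraicClosure K) ((T ∪ D.primeFactors : Finset ℕ) : Set ℕ))
      (tw cyQ) f → ∑ w, invFQ w (RQ.rs (stb (HP.PP P w)) f) + (f c c + f 1 1) = 0)
    (hKD : KDatF D κ T (HP.PP P) inv invF θ φ m v)
    (hrel : ∀ (w : Option T) (f : (AlgebraicClosure K ≃+* AlgebraicClosure K) →
      (AlgebraicClosure K ≃+* AlgebraicClosure K) → A0),
      invF w (fun a b => f (iK K (a : AbsGal K)) (iK K (b : AbsGal K))) =
        invFQ (RQ.incl Finset.subset_union_left w) (fun a b => f a b))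
    (hθ : ∀ p ∈ D.primeFactors, iK K (θ p) * c ∈ inr (P p))
    (H : ParD.{w} (big (fullK (K := K) T) N₀)
      (fun w : Option T => big (fullD (stabD (HP.PP P w)))
        (N₀.comap (stabD (HP.PP P w)).subtype))
      (fun w => (stabD (HP.PP P w)).subtype) cyc invF κ
      {p | ∃ n ∈ D.primeFactors, p = (θ n, φ n)})
    (Q : QS.KQ.{u, w} (big (fullK (K := K) T) N₀)
      (D := fun w : Option T => stabD (HP.PP P w))
      (fun w => big (fullD (stabD (HP.PP P w))) (N₀.comap (stabD (HP.PP P w)).subtype))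
      (fun w => (stabD (HP.PP P w)).subtype) cyc invF κ (big (KS.sQ K T D) (N₀.map (iK K)))
      (E := fun q : Option D.primeFactors => HQ c P (plQ T D q))
      (fun q => SQ c P (N₀.map (iK K)) (plQ T D q)) (fun q => GA.jQ c P (plQ T D q)) cyQ
      (fun q => iQ c P invFQ (plQ T D q)) (iK K) c (InQ c T D P) tr)
    {O : Type w} [CommRing O] [IsLocalRing O] [Finite (IsLocalRing.ResidueField O)]
    {M : Type w} [AddCommGroup M] [Module O M] [Finite M] {ρ : AbsGal K → M → M}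
    {b : M →+ M →+ A0}
    (h : SDualF (big (fullK (K := K) T) N₀) cyc κ {p | ∃ n ∈ D.primeFactors, p = (θ n, φ n)} O ρ b)
    (hM : ∀ a ∈ IsLocalRing.maximalIdeal O, ∀ m : M, a • m = 0) (h2 : (2 : O) ∈ IsLocalRing.maximalIdeal O)
    {C : M →ₗ[O] M} (hCC : ∀ m, C (C m) = m) (hC : ∀ g m, C (ρ (κ g) m) = ρ g (C m))
    (halt : ∀ (a : O) m, b (a • m) (C m) = 0)
    (hth : ∀ p ∈ D.primeFactors, ∀ m, ρ (θ p) (C m) = m) :
    ∃ Λ₀ : ∀ w : Option T, Submodule O (stabD (HP.PP P w) → M),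
        (∀ w : Option T, Betw (big (fullD (stabD (HP.PP P w)))
          (N₀.comap (stabD (HP.PP P w)).subtype))
          (fun d => ρ ((stabD (HP.PP P w)).subtype d)) (Λ₀ w)) ∧
        EvPow (Nat.card (IsLocalRing.ResidueField O))
          (Nat.card (selM h (fun w : Option T => (stabD (HP.PP P w)).subtype) Λ₀
            fun w => perpM H h w (Λ₀ w)) * ∏ w, Nat.card (Λ₀ w)) :=
  QP.level_one hK hc hκ hT hP hQ hFQ hrel hθ H Q h2 hM h
    ⟨map_add C, map_smul C, hCC, hC, halt⟩ hth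

end Pool.Agent.Work.MP_787500_nt.QF
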