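import Mathlib
import Pool.Agent.Work.MP_787500_nt.QF.Fin1
import Pool.Agent.Work.MP_787500_nt.QF.One
import Pool.Agent.Work.MP_787500_nt.QF.LevC
import Pool.Agent.Work.MP_787500_nt.QF.N0
import Pool.Agent.Work.MP_787500_nt.LX.X1_Sqrt
import Pool.Agent.Work.MP_787500_nt.LX.X2_Ring
import Pool.Agent.Work.MP_787500_nt.LX.X5_Par
import Pool.Agent.Work.MP_787500_nt.LB.BK
import Pool.Agent.Work.MP_787500_nt.GP.L04_Func

/-!
The parity formula with the condition of Bloch and Kato at all primes not above 2 for representations that have a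
matrix `C` as in `MatC` over the extension by the square root of a uniformizer. There is no condition on the
residual image.
-/

set_option autoImplicit false
set_option linter.unusedSectionVars false

namespace Pool.Agent.Work.MP_787500_nt.QF

open Matrix NumberField
open Pool.Agent.Work.MP_787500_nt.PA (cyc toE)
open Pool.Agent.Work.MP_787500_nt.GP
open Pool.Agent.Work.MP_787500_nt.LX
open Pool.Agent.Work.MP_787500_nt.KR (FSys big fullK fullD ParD)
open Pool.Agent.Work.MP_787500_nt.HP (IsQ Spl IsP)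

universe u v

variable {K : Type u} [Field K] [NumberField K] {D : ℕ} {s : K}
  {c : AlgebraicClosure K ≃+* AlgebraicClosure K} {κ : AbsGal K →* AbsGal K}

/-- `g` composed with `c` belongs to the inertia group at a prime above a prime divisor of `D` -/
def InD (c : AlgebraicClosure K ≃+* AlgebraicClosure K) (D : ℕ) (g : AbsGal K) : Prop :=
  ∃ p ∈ D.primeFactors, ∃ Q : Ideal (𝓞 (AlgebraicClosure K)), Q.IsPrime ∧
    (p : 𝓞 (AlgebraicClosure K)) ∈ Q ∧ KS.iK K g * c ∈ HP.inr Q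

/-- The representation has a self-dual lattice and a matrix `C` over the extension by the square root of a
uniformizer. -/
def HasC {E : Type v} [NormedField E] [NormedAlgebra ℚ_[2] E] {n : ℕ} (A : AbsGal K → Prop)
    (κ : AbsGal K →* AbsGal K) (ρ : AbsGal K →* Matrix (Fin n) (Fin n) E)
    (b : Matrix (Fin n) (Fin n) E) : Prop :=
  ∀ (E' : Type v) [NormedField E'] [NormedAlgebra ℚ_[2] E'] [FiniteDimensional ℚ_[2] E']
    (ι : E →ₐ[ℚ_[2]] E') (m : E') (l : OE E), (l : E) ≠ 0 → ‖(l : E)‖ < 1 →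
    (∀ x : E, ‖x‖ < 1 → ‖x‖ ≤ ‖(l : E)‖) → SqrtExt ι (l : E) m →
    ∃ (L : Submodule (OE E') (Fin n → E')) (C : Matrix (Fin n) (Fin n) E'),
      (∀ g, ∀ x ∈ L, mapRep ι ρ g *ᵥ x ∈ L) ∧
      (∀ x, x ∈ L ↔ ∀ y ∈ L, ‖bil (b.map ι) x y‖ ≤ 1) ∧ (∃ R : ℝ, ∀ x ∈ L, ‖x‖ ≤ R) ∧
      (∃ r : ℝ, 0 < r ∧ ∀ x : Fin n → E', ‖x‖ < r → x ∈ L) ∧
      MatC (b.map ι) L κ (fun g => mapRep ι ρ g) C ∧
      ∀ g, A g → (∀ x : Fin n → E', bil (b.map ι) x (mapRep ι ρ g *ᵥ x) = 0) →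
        ∃ u : E', ‖u - 1‖ < 1 ∧ mapRep ι ρ g * C = u • (1 : Matrix (Fin n) (Fin n) E')

/-- multiples of the uniformizer kill the module at the level 1 -/
theorem max_MN {E : Type v} [NormedField E] [NormedAlgebra ℚ_[2] E] [FiniteDimensional ℚ_[2] E]
    [IsLocalRing (OE E)] {n : ℕ} {b : Matrix (Fin n) (Fin n) E} {l : OE E} {t : E →ₗ[ℚ_[2]] ℚ_[2]}
    {L : Submodule (OE E) (Fin n → E)} (h : Lat b l t L) :
    ∀ a ∈ IsLocalRing.maximalIdeal (OE E), ∀ m : MN L l 1, a • m = 0 := by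
  intro a ha m
  rw [mem_maximal] at ha
  have h1 : ‖(a : E) * (l : E)⁻¹‖ ≤ 1 := by
    rw [norm_mul, norm_inv, ← div_eq_mul_inv, div_le_one (norm_pos_iff.2 h.lne)]
    exact h.lmax _ ha
  have h2 : a = (⟨(a : E) * (l : E)⁻¹, h1⟩ : OE E) * l ^ 1 := by
    apply Subtype.ext
    show (a : E) = (a : E) * (l : E)⁻¹ * ((l ^ 1 : OE E) : E)
    rw [pow_one, mul_assoc, inv_mul_cancel₀ h.lne, mul_one]
  apply Subtype.ext
  show a • (m : Wq L) = 0
  rw [h2, mul_smul, m.mem, smul_zero]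

theorem main_gen (hK : IsQ K D s) (hc : PA.IsConj s c)
    (hκ : ∀ (σ : AbsGal K) (x : AlgebraicClosure K), κ σ x = c (σ (c x)))
    {P₀ : Ideal (𝓞 (AlgebraicClosure K))} (hP₀ : P₀.IsPrime)
    (hP2 : (2 : 𝓞 (AlgebraicClosure K)) ∈ P₀)
    {T : Finset ℕ} (hT : ∀ l ∈ T, Spl D l)
    (hTX : ∀ l, Spl D l → ∀ Q : Ideal (𝓞 (AlgebraicClosure K)), Q.IsPrime →
      (l : 𝓞 (AlgebraicClosure K)) ∈ Q → LB.TX Q l)
    {E : Type v} [NormedField E] [NormedAlgebra ℚ_[2] E] [FiniteDimensional ℚ_[2] E] {n : ℕ}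
    {ρ : AbsGal K →* Matrix (Fin n) (Fin n) E} {b : Matrix (Fin n) (Fin n) E} (hb : b.det ≠ 0)
    (hρ : Parity.IsDualRep (inT K T) (Parity.cyclo E) κ ρ b) (hC : HasC (InD c D) κ ρ b) :
    Parity.ParityBK (Parity.inertiaOffTwo K) (Parity.cyclo E) κ ρ b (stabD P₀) False := by
  classical
  have hκκ : ∀ g, κ (κ g) = g := GA.kap_kap hc hκ
  have hodd : ∀ g : AbsGal K, (2 : ℤ_[2]) ∣ cyc g - 1 := PA.isChar_cyc.odd
  obtain ⟨N₀, hNn, hNF, hNo, hκN, hNI, hpro⟩ := exists_n0 (KR.isFull_K T) (χ := cyc)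
    PA.isChar_cyc.mul PA.isChar_cyc.one hodd hκκ hb hρ
  obtain ⟨C, T', hTT', hsT', hyp⟩ := exists_kq.{u, v} hK hc hκ hT hNF hκN
  -- the primes
  have hR : ∀ p : ℕ, ∃ Q : Ideal (𝓞 (AlgebraicClosure K)), p.Prime →
      Q.IsPrime ∧ (p : 𝓞 (AlgebraicClosure K)) ∈ Q := by
    intro p
    by_cases hp : p.Prime
    · obtain ⟨Q, hQ⟩ := HP.prime_over_nat (Ω := AlgebraicClosure K) hp
      exact ⟨Q, fun _ => hQ⟩
    · exact ⟨⊥, fun h => absurd h hp⟩
  choose R hR using hR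
  let P : ℕ → Ideal (𝓞 (AlgebraicClosure K)) := fun l => if l = 2 then P₀ else R l
  have h2 : P 2 = P₀ := if_pos rfl
  have hout : ∀ l, l ≠ 2 → P l = R l := fun l hl => if_neg hl
  have hprime : ∀ l ∈ T' ∪ D.primeFactors, l.Prime := by
    intro l hl
    rcases Finset.mem_union.1 hl with h | h
    · exact (hsT' l h).1
    · exact Nat.prime_of_mem_primeFactors h
  have hodd' : ∀ l ∈ T' ∪ D.primeFactors, l ≠ 2 := by
    intro l hl
    rcases Finset.mem_union.1 hl with h | h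
    · exact (hsT' l h).2.1
    · rintro rfl
      have h3 := Nat.dvd_of_mem_primeFactors h
      have h4 := hK.mod
      omega
  have hIsP : IsP (T' ∪ D.primeFactors) P := by
    refine ⟨hprime, hodd', fun l hl => ?_, fun l hl => ?_⟩
    · by_cases h : l = 2
      · subst h
        rw [h2]
        exact hP₀
      · rw [hout l h]
        exact (hR l (hprime l (hl.resolve_right h))).1
    · by_cases h : l = 2
      · subst h
        rw [h2]
        exact_mod_cast hP2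
      · rw [hout l h]
        exact (hR l (hprime l (hl.resolve_right h))).2
  have hIsP' : IsP T' P := isP_left hIsP
  obtain ⟨invQ, invFQ, inv, invF, θ, φ, m, w, hQ, hFQ, hrec, hKD, hrel, hθ, hyp', tr, Q⟩ :=
    hyp T' le_rfl hsT' P hIsP
  have H : ParD.{v} (big (fullK (K := K) T') N₀)
      (fun w : Option T' => big (fullD (stabD (HP.PP P w)))
        (N₀.comap (stabD (HP.PP P w)).subtype))
      (fun w => (stabD (HP.PP P w)).subtype) cyc invF κ
      {p | ∃ n ∈ D.primeFactors, p = (θ n, φ n)} := KR.parD_of hyp'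
  have hI : ∀ σ ∈ inT K T', ρ σ = 1 := fun σ hσ => hρ.unram σ (HP.inT_mono hTT' hσ)
  have hNI' : ∀ σ ∈ inT K T', σ ∈ N₀ := fun σ hσ => hNI σ (HP.inT_mono hTT' hσ)
  have hρ₀ : Gn.ConjDual 2 N₀ (inT K T') (fun g => toE E (cyc g)) κ ρ b :=
    ⟨hρ.cont, hpro, hI, hρ.symm, hρ.dual⟩
  have hform : Parity.ParityFormula (inT K T') (fun g => toE E (cyc g)) κ ρ b
      (fun w : Option T' => stabD (HP.PP P w)) := by
    obtain ⟨l, hl0, hl1, hlm⟩ := exists_unif E
    obtain ⟨E', i1, i2, i3, ι, m', hx⟩ := exists_sqrtExt hl0 hl1 hlm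
    refine parity_ext hx hl0 ?_
    have hloc : IsLocalRing (OE E') := isLocal E'
    have hrf : Finite (IsLocalRing.ResidueField (OE E')) := res_finite
    have hρ' := conjDual_ext hx hρ₀
    obtain ⟨L, C₀, hst, hdual, hbdd, hopn, hMC, hMth⟩ := hC E' ι m' l hl0 hl1 hlm hx
    obtain ⟨t, ht1, ht2, ht3⟩ := exists_func E'
    let l' : OE E' := ⟨m', (hx.lt hl1).le⟩
    have hlat : Lat (b.map ι) l' t L :=
      ⟨hx.ne hl0, hx.lt hl1, hx.max hl0 hl1 hlm, ht1, ht2, ht3, hρ'.symm, hdual, hbdd, hopn⟩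
    have hfM : Finite (MN L l' 1) := MN_finite hlat 1
    refine parity_fin hK hc hκ hsT' hIsP hNn hNo hκN hNI' hKD hθ H Q (det_ext hx hb) hρ' hlat hst
      fun hal h₁ => ?_
    obtain ⟨C₁, g1, g2, g3, g4⟩ := hMC.exists_C1 hlat hst
    refine one_K hK hc hκ hsT' hIsP hNn hNo hκN hNI' hQ hFQ hrec hKD hrel hθ H Q h₁
      (max_MN hlat) two_mem g1 g2 g3 fun p hp => ?_
    obtain ⟨u, hu, hu'⟩ := hMth (θ p) ⟨p, hp, P p,
      hIsP.isPrime p (Or.inl (Finset.mem_union_right _ hp)),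
      hIsP.mem p (Or.inl (Finset.mem_union_right _ hp)), hθ p hp⟩ (hal p hp)
    exact g4 (θ p) u hu hu'
  have hfin := LB.bk_gen hK hc hκ hIsP' (fun l hl => hTX l (hsT' l hl) _
    (hIsP'.isPrime l (Or.inl hl)) (hIsP'.mem l (Or.inl hl))) hNn hNo hκN hρ₀ hb hform
  rw [h2] at hfin
  exact hfin

end Pool.Agent.Work.MP_787500_nt.QF
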