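import Mathlib
import Pool.Agent.Work.MP_787500_nt.QF.LevC
import Pool.Agent.Work.MP_787500_nt.GP.L03_Ring

/-!
Dimension 2, determinant congruent to 1 modulo the maximal ideal: the matrix `C` exists for every self-dual lattice.
-/

set_option autoImplicit false
set_option linter.unusedSectionVars false

namespace Pool.Agent.Work.MP_787500_nt.QF

open Matrix
open Pool.Agent.Work.MP_787500_nt.GP
open Pool.Agent.Work.MP_787500_nt.PA (toE)

section alg

variable {E : Type*} [NormedField E] [NormedAlgebra ℚ_[2] E]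

/-- the exterior product -/
def wdg (x y : Fin 2 → E) : E := x 0 * y 1 - x 1 * y 0

/-- the matrix of the exterior product -/
def J2 : Matrix (Fin 2) (Fin 2) E := !![0, -1; 1, 0]

theorem bil_two (b : Matrix (Fin 2) (Fin 2) E) (x y : Fin 2 → E) : bil b x y =
    x 0 * (b 0 0 * y 0 + b 0 1 * y 1) + x 1 * (b 1 0 * y 0 + b 1 1 * y 1) := by
  simp [bil, dotProduct, mulVec, Fin.sum_univ_two]

theorem gram (b : Matrix (Fin 2) (Fin 2) E) (x y z w : Fin 2 → E) :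
    bil b x z * bil b y w - bil b x w * bil b y z = b.det * (wdg x y * wdg z w) := by
  rw [bil_two, bil_two, bil_two, bil_two, det_fin_two, wdg, wdg]
  ring

theorem J2b_val (b : Matrix (Fin 2) (Fin 2) E) (x : Fin 2 → E) : (J2 * b) *ᵥ x =
    ![-(b 1 0 * x 0 + b 1 1 * x 1), b 0 0 * x 0 + b 0 1 * x 1] := by
  ext i
  fin_cases i
  · simp [J2, mulVec, dotProduct, Fin.sum_univ_two, Matrix.mul_apply]
  · simp [J2, mulVec, dotProduct, Fin.sum_univ_two, Matrix.mul_apply]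

theorem J2_form {b : Matrix (Fin 2) (Fin 2) E} (hb : bᵀ = b) (x y : Fin 2 → E) :
    bil b ((J2 * b) *ᵥ x) y = b.det * wdg x y := by
  have h1 : b 0 1 = b 1 0 := congrFun (congrFun hb 1) 0
  rw [J2b_val, bil_two, det_fin_two, wdg]
  simp only [cons_val_zero, cons_val_one, h1]
  ring

theorem J2_sq {b : Matrix (Fin 2) (Fin 2) E} (hb : bᵀ = b) :
    (J2 * b) * (J2 * b) = (-b.det) • (1 : Matrix (Fin 2) (Fin 2) E) := by
  have h1 : b 0 1 = b 1 0 := congrFun (congrFun hb 1) 0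
  have h2 : (J2 * b) = !![-b 1 0, -b 1 1; b 0 0, b 1 0] := by
    ext i j
    fin_cases i <;> fin_cases j <;> simp [J2, Matrix.mul_apply, Fin.sum_univ_two, h1]
  rw [h2, det_fin_two, h1]
  ext i j
  fin_cases i <;> fin_cases j <;> simp [Matrix.mul_apply, Fin.sum_univ_two] <;> ring

theorem J2_mul (A : Matrix (Fin 2) (Fin 2) E) : A * J2 * Aᵀ = A.det • J2 := by
  ext i j
  fin_cases i <;> fin_cases j <;>
    simp [J2, Matrix.mul_apply, Fin.sum_univ_two, det_fin_two] <;> ring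

end alg

variable {E : Type*} [NormedField E] [NormedAlgebra ℚ_[2] E] [FiniteDimensional ℚ_[2] E]

private theorem nsub (x y : E) : ‖x - y‖ ≤ max ‖x‖ ‖y‖ := by
  have hu := Gn.ultra 2 E
  rw [sub_eq_add_neg, ← norm_neg y]
  exact IsUltrametricDist.norm_add_le_max _ _

private theorem norm_of {x : E} (hx : ‖x - 1‖ < 1) : ‖x‖ = 1 := by
  have hu := Gn.ultra 2 E
  have h1 : x = x - 1 + 1 := by ring
  rw [h1, IsUltrametricDist.norm_add_eq_max_of_norm_ne_norm (by rw [norm_one]; exact hx.ne),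
    norm_one, max_eq_right hx.le]

/-- a unit is a square modulo the maximal ideal -/
theorem exists_sqrt_mod {w : E} (hw : ‖w‖ = 1) : ∃ v : E, ‖v‖ = 1 ∧ ‖w * (v * v)⁻¹ - 1‖ < 1 := by
  have hloc : IsLocalRing (OE E) := isLocal E
  have hfin : Finite (IsLocalRing.ResidueField (OE E)) := res_finite
  have h2 : (2 : IsLocalRing.ResidueField (OE E)) = 0 := by
    have h3 := (IsLocalRing.residue_eq_zero_iff (2 : OE E)).2 two_mem
    rwa [map_ofNat] at h3
  have hinj : Function.Injective (fun x : IsLocalRing.ResidueField (OE E) => x * x) := by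
    intro x y hxy
    have h3 : (x - y) * (x - y) = 0 := by
      have h4 : x * x = y * y := hxy
      linear_combination h4 + (y * y - x * y) * h2
    exact sub_eq_zero.1 (mul_self_eq_zero.1 h3)
  obtain ⟨r, hr⟩ := (Finite.injective_iff_surjective.1 hinj) (IsLocalRing.residue _ ⟨w, hw.le⟩)
  obtain ⟨v, rfl⟩ := IsLocalRing.residue_surjective r
  have h3 : IsLocalRing.residue (OE E) (⟨w, hw.le⟩ - v * v) = 0 := by
    rw [map_sub, map_mul, ← hr, sub_self]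
  rw [IsLocalRing.residue_eq_zero_iff, mem_maximal] at h3
  have h4 : ‖w - (v : E) * v‖ < 1 := h3
  have hu := Gn.ultra 2 E
  have h5 : ‖(v : E)‖ = 1 := by
    have h6 : ‖(v : E) * v‖ = 1 := by
      have h7 : (v : E) * v = w + -(w - (v : E) * v) := by ring
      rw [h7, IsUltrametricDist.norm_add_eq_max_of_norm_ne_norm (by
        rw [norm_neg, hw]
        exact h4.ne'), norm_neg, hw, max_eq_left h4.le]
    rw [norm_mul] at h6
    nlinarith [norm_nonneg (v : E), v.2, (show ‖(v : E)‖ ≤ 1 from v.2)]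
  refine ⟨v, h5, ?_⟩
  have h6 : (v : E) * v ≠ 0 := by
    rw [← norm_pos_iff, norm_mul, h5]
    norm_num
  have h7 : w * ((v : E) * v)⁻¹ - 1 = (w - (v : E) * v) * ((v : E) * v)⁻¹ := by
    rw [sub_mul, mul_inv_cancel₀ h6]
  rw [h7, norm_mul, norm_inv, norm_mul, h5, mul_one, inv_one, mul_one]
  exact h4

/-- the covolume of a self-dual lattice -/
theorem exists_wdg {b : Matrix (Fin 2) (Fin 2) E} (hb : b.det ≠ 0) (hbs : bᵀ = b)
    {L : Submodule (OE E) (Fin 2 → E)} (hdual : ∀ x, x ∈ L ↔ ∀ y ∈ L, ‖bil b x y‖ ≤ 1)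
    (hbdd : ∃ R : ℝ, ∀ x ∈ L, ‖x‖ ≤ R) (hopn : ∃ r : ℝ, 0 < r ∧ ∀ x : Fin 2 → E, ‖x‖ < r → x ∈ L) :
    ∃ d : E, (∀ x ∈ L, ∀ y ∈ L, ‖wdg x y‖ ≤ ‖d‖) ∧ ‖d‖ * ‖d‖ * ‖b.det‖ = 1 := by
  have hu := Gn.ultra 2 E
  have hpr : ProperSpace E := FiniteDimensional.proper ℚ_[2] E
  have hcl : IsClosed (L : Set (Fin 2 → E)) := by
    have e : (L : Set (Fin 2 → E)) = ⋂ y ∈ L, {x | ‖bil b x y‖ ≤ 1} := by
      ext x
      simp only [SetLike.mem_coe, Set.mem_iInter]
      exact hdual x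
    rw [e]
    refine isClosed_biInter fun y _ => isClosed_le ?_ continuous_const
    unfold bil
    fun_prop
  obtain ⟨R, hR⟩ := hbdd
  have hcomp : IsCompact (L : Set (Fin 2 → E)) :=
    Metric.isCompact_of_isClosed_isBounded hcl
      ((Metric.isBounded_closedBall (x := (0 : Fin 2 → E)) (r := R)).subset fun x hx => by
        rw [mem_closedBall_zero_iff]
        exact hR x hx)
  have hcont : Continuous fun p : (Fin 2 → E) × (Fin 2 → E) => ‖wdg p.1 p.2‖ := by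
    unfold wdg
    fun_prop
  obtain ⟨⟨x₁, x₂⟩, ⟨hx₁, hx₂⟩, hmax⟩ := (hcomp.prod hcomp).exists_isMaxOn
    ⟨(0, 0), L.zero_mem, L.zero_mem⟩ hcont.continuousOn
  have hmax' : ∀ x ∈ L, ∀ y ∈ L, ‖wdg x y‖ ≤ ‖wdg x₁ x₂‖ := fun x hx y hy =>
    hmax (Set.mk_mem_prod hx hy)
  refine ⟨wdg x₁ x₂, hmax', ?_⟩
  set d := wdg x₁ x₂ with hd
  have hd0 : d ≠ 0 := by
    obtain ⟨r, hr, hrL⟩ := hopn
    obtain ⟨a, ha0, har⟩ := NormedField.exists_norm_lt ℚ_[2] hr
    set a' : E := algebraMap ℚ_[2] E a with ha'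
    have hna : ‖a'‖ = ‖a‖ := norm_algebraMap' _ _
    have h1 : ∀ i : Fin 2, (Pi.single i a' : Fin 2 → E) ∈ L := fun i => hrL _ (by
      rw [Pi.norm_single, hna]
      exact har)
    have h2 := hmax' _ (h1 0) _ (h1 1)
    have h3 : wdg (Pi.single 0 a' : Fin 2 → E) (Pi.single 1 a') = a' * a' := by
      simp [wdg]
    rw [h3, norm_mul, hna] at h2
    have h4 : 0 < ‖a‖ * ‖a‖ := mul_pos ha0 ha0
    exact norm_pos_iff.1 (h4.trans_le h2)
  have hint : ∀ x ∈ L, ∀ y ∈ L, ‖bil b x y‖ ≤ 1 := fun x hx y hy => (hdual x).1 hx y hy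
  have hle : ‖d‖ * ‖d‖ * ‖b.det‖ ≤ 1 := by
    have h1 := gram b x₁ x₂ x₁ x₂
    have h2 : ‖b.det * (wdg x₁ x₂ * wdg x₁ x₂)‖ ≤ 1 := by
      rw [← h1]
      refine (nsub _ _).trans (max_le ?_ ?_)
      · rw [norm_mul]
        exact mul_le_one₀ (hint _ hx₁ _ hx₁) (norm_nonneg _) (hint _ hx₂ _ hx₂)
      · rw [norm_mul]
        exact mul_le_one₀ (hint _ hx₁ _ hx₂) (norm_nonneg _) (hint _ hx₂ _ hx₁)
    rw [norm_mul, norm_mul, mul_comm] at h2
    exact h2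
  have h01 : b 0 1 = b 1 0 := congrFun (congrFun hbs 1) 0
  -- the dual basis
  have hy : ∀ u ∈ L, (d * b.det)⁻¹ • ((J2 * b) *ᵥ u) ∈ L := by
    intro u hu'
    rw [hdual]
    intro z hz
    rw [bil_smul_left, J2_form hbs, norm_mul, norm_inv, norm_mul, norm_mul]
    have h1 := hmax' _ hu' _ hz
    have hdn : 0 < ‖d‖ := norm_pos_iff.2 hd0
    have hbn : 0 < ‖b.det‖ := norm_pos_iff.2 hb
    rw [inv_mul_le_iff₀ (mul_pos hdn hbn), mul_one, mul_comm ‖d‖]
    exact mul_le_mul_of_nonneg_left h1 hbn.le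
  have h1 := hmax' _ (hy _ hx₁) _ (hy _ hx₂)
  have h2 : wdg ((d * b.det)⁻¹ • ((J2 * b) *ᵥ x₁)) ((d * b.det)⁻¹ • ((J2 * b) *ᵥ x₂)) =
      (d * b.det)⁻¹ := by
    have h3 : wdg ((J2 * b) *ᵥ x₁) ((J2 * b) *ᵥ x₂) = b.det * d := by
      rw [hd, J2b_val, J2b_val, det_fin_two, wdg, wdg]
      simp only [cons_val_zero, cons_val_one]
      ring
    have h4 : ∀ (a : E) (x y : Fin 2 → E), wdg (a • x) (a • y) = a * (a * wdg x y) := by
      intro a x y
      simp only [wdg, Pi.smul_apply, smul_eq_mul]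
      ring
    rw [h4, h3, mul_comm b.det d, inv_mul_cancel₀ (mul_ne_zero hd0 hb), mul_one]
  rw [h2, norm_inv, norm_mul] at h1
  have hdn : 0 < ‖d‖ := norm_pos_iff.2 hd0
  have hbn : 0 < ‖b.det‖ := norm_pos_iff.2 hb
  have h3 : 1 ≤ ‖d‖ * ‖d‖ * ‖b.det‖ := by
    rw [inv_le_iff_one_le_mul₀ (mul_pos hdn hbn)] at h1
    calc (1 : ℝ) ≤ ‖d‖ * (‖d‖ * ‖b.det‖) := h1
      _ = ‖d‖ * ‖d‖ * ‖b.det‖ := by ring
  exact le_antisymm hle h3

variable {G : Type*} {b : Matrix (Fin 2) (Fin 2) E} {L : Submodule (OE E) (Fin 2 → E)} {κ : G → G}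
  {ρ : G → Matrix (Fin 2) (Fin 2) E}

theorem anti_two {b R : Matrix (Fin 2) (Fin 2) E} (h : ∀ x : Fin 2 → E, bil b x (R *ᵥ x) = 0) :
    ∃ μ : E, b * R = μ • J2 := by
  have h1 : ∀ x : Fin 2 → E, x ⬝ᵥ ((b * R) *ᵥ x) = 0 := by
    intro x
    have h2 := h x
    rwa [bil, mulVec_mulVec] at h2
  have h00 := h1 ![1, 0]
  have h11 := h1 ![0, 1]
  have h01 := h1 ![1, 1]
  simp only [dotProduct, mulVec, Fin.sum_univ_two, cons_val_zero, cons_val_one, one_mul, zero_mul,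
    mul_one, mul_zero, add_zero, zero_add] at h00 h11 h01
  refine ⟨(b * R) 1 0, ?_⟩
  ext i j
  fin_cases i <;> fin_cases j
  · simpa [J2] using h00
  · have h2 : (b * R) 0 1 = -(b * R) 1 0 := by
      linear_combination h01 - h00 - h11
    simpa [J2] using h2
  · simp [J2]
  · simpa [J2] using h11

/-- the value on the matrices that give an alternating form -/
theorem anti_val {b R : Matrix (Fin 2) (Fin 2) E} (hb : b.det ≠ 0) (hbs : bᵀ = b) {a : E}
    (ha : ‖a * a * -b.det - 1‖ < 1) (hR : ‖R.det - 1‖ < 1)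
    (h : ∀ x : Fin 2 → E, bil b x (R *ᵥ x) = 0) :
    ∃ u : E, ‖u - 1‖ < 1 ∧ R * (a • (J2 * b)) = u • (1 : Matrix (Fin 2) (Fin 2) E) := by
  obtain ⟨μ, hμ⟩ := anti_two h
  have hu := Gn.ultra 2 E
  have h1 : R = (μ * b.det⁻¹) • (J2 * b) := by
    have h2 : (J2 * b) * ((J2 * b) * R) = (-b.det) • R := by
      rw [← Matrix.mul_assoc, J2_sq hbs, Matrix.smul_mul, Matrix.one_mul]
    have h3 : (J2 * J2 : Matrix (Fin 2) (Fin 2) E) = -1 := by
      ext i j
      fin_cases i <;> fin_cases j <;> simp [J2, Matrix.mul_apply, Fin.sum_univ_two]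
    have h4 : (J2 * b) * R = -μ • (1 : Matrix (Fin 2) (Fin 2) E) := by
      rw [Matrix.mul_assoc, hμ, Matrix.mul_smul, h3, smul_neg, neg_smul]
    rw [h4, Matrix.mul_smul, Matrix.mul_one] at h2
    have h5 : R = (-b.det)⁻¹ • ((-b.det) • R) := by
      rw [smul_smul, inv_mul_cancel₀ (neg_ne_zero.2 hb), one_smul]
    rw [h5, ← h2, smul_smul]
    congr 1
    rw [inv_neg]
    ring
  refine ⟨μ * b.det⁻¹ * a * -b.det, ?_, ?_⟩
  · set u := μ * b.det⁻¹ * a * -b.det with hudef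
    have h2 : R.det = (μ * b.det⁻¹) * (μ * b.det⁻¹) * b.det := by
      have h3 : (J2 : Matrix (Fin 2) (Fin 2) E).det = 1 := by
        rw [det_fin_two]
        simp [J2]
      rw [h1, det_smul, det_mul, h3, one_mul, Fintype.card_fin, pow_two]
    have h3 : u * u = -(R.det * (a * a * -b.det)) := by
      rw [h2, hudef]
      ring
    have hn2 : ‖(2 : E)‖ < 1 := by
      have hloc : IsLocalRing (OE E) := isLocal E
      have h4 := two_mem (E := E)
      rw [mem_maximal] at h4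
      exact h4
    by_contra hcon
    rw [not_lt] at hcon
    have h5 : ‖(u - 1) * (u + 1)‖ < 1 := by
      have h6 : (u - 1) * (u + 1) = -(R.det - 1) * (a * a * -b.det) - (a * a * -b.det - 1) - 2 := by
        linear_combination h3
      rw [h6]
      have h7 : ‖a * a * -b.det‖ = 1 := norm_of ha
      refine (nsub _ _).trans_lt (max_lt ((nsub _ _).trans_lt (max_lt ?_ ha)) hn2)
      rw [norm_mul, h7, mul_one, norm_neg]
      exact hR
    have h8 : ‖u + 1‖ = ‖u - 1‖ := by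
      have h9 : u + 1 = (u - 1) + 2 := by ring
      rw [h9, IsUltrametricDist.norm_add_eq_max_of_norm_ne_norm (ne_of_gt (hn2.trans_le hcon)),
        max_eq_left (hn2.le.trans hcon)]
    rw [norm_mul, h8] at h5
    nlinarith
  · rw [h1, smul_mul_smul_comm, J2_sq hbs, smul_smul]

/-- THE MATRIX `C` in dimension 2. -/
theorem exists_matC_two (hb : b.det ≠ 0) (hbs : bᵀ = b)
    (hdual : ∀ x, x ∈ L ↔ ∀ y ∈ L, ‖bil b x y‖ ≤ 1)
    (hbdd : ∃ R : ℝ, ∀ x ∈ L, ‖x‖ ≤ R) (hopn : ∃ r : ℝ, 0 < r ∧ ∀ x : Fin 2 → E, ‖x‖ < r → x ∈ L)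
    {χ : G → E} (hχ : ∀ g, ‖χ g - 1‖ < 1) (hdet : ∀ g, ‖(ρ g).det - 1‖ < 1)
    (hd : ∀ g, (ρ g)ᵀ * b * ρ (κ g) = χ g • b) : ∃ C, MatC b L κ ρ C ∧
      ∀ g, (∀ x : Fin 2 → E, bil b x (ρ g *ᵥ x) = 0) →
        ∃ u : E, ‖u - 1‖ < 1 ∧ ρ g * C = u • (1 : Matrix (Fin 2) (Fin 2) E) := by
  have hu := Gn.ultra 2 E
  obtain ⟨d, hd1, hd2⟩ := exists_wdg hb hbs hdual hbdd hopn
  obtain ⟨v, hv, hv2⟩ := exists_sqrt_mod (w := -(d * d * b.det)) (by
    rw [norm_neg, norm_mul, norm_mul]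
    exact hd2)
  have hv0 : v ≠ 0 := by
    rw [← norm_pos_iff, hv]
    exact one_pos
  refine ⟨(v⁻¹ * d) • (J2 * b), ⟨fun x hx => ?_, ⟨_, hv2, ?_⟩, fun g => ?_, fun x => ?_⟩,
    fun g hg => anti_val hb hbs ?_ (hdet g) hg⟩
  · rw [smul_mulVec, hdual]
    intro y hy
    rw [bil_smul_left, J2_form hbs, norm_mul, norm_mul, norm_mul, norm_inv, hv, inv_one, one_mul]
    have h1 := hd1 x hx y hy
    calc ‖d‖ * (‖b.det‖ * ‖wdg x y‖) ≤ ‖d‖ * (‖b.det‖ * ‖d‖) := by gcongr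
      _ = ‖d‖ * ‖d‖ * ‖b.det‖ := by ring
      _ = 1 := hd2
      _ ≤ 1 := le_rfl
  · rw [smul_mul_smul_comm, J2_sq hbs, smul_smul]
    congr 1
    rw [mul_inv]
    ring
  · have h1 : ‖(ρ g).det‖ = 1 := norm_of (hdet g)
    have h2 : (ρ g).det ≠ 0 := by
      rw [← norm_pos_iff, h1]
      exact one_pos
    have h3 : (ρ g).det • (J2 * b * ρ (κ g)) = χ g • (ρ g * (J2 * b)) := by
      calc (ρ g).det • (J2 * b * ρ (κ g)) = ((ρ g).det • J2) * (b * ρ (κ g)) := by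
            rw [Matrix.smul_mul, Matrix.mul_assoc]
        _ = ρ g * J2 * ((ρ g)ᵀ * b * ρ (κ g)) := by
            rw [← J2_mul]
            simp only [Matrix.mul_assoc]
        _ = χ g • (ρ g * (J2 * b)) := by
            rw [hd, Matrix.mul_smul, Matrix.mul_assoc]
    refine ⟨χ g * ((ρ g).det)⁻¹, ?_, ?_⟩
    · have h4 : χ g * ((ρ g).det)⁻¹ - 1 = ((χ g - 1) - ((ρ g).det - 1)) * ((ρ g).det)⁻¹ := by
        field_simp
        ring
      rw [h4, norm_mul, norm_inv, h1, inv_one, mul_one]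
      exact (nsub _ _).trans_lt (max_lt (hχ g) (hdet g))
    · have h4 : J2 * b * ρ (κ g) = (χ g * ((ρ g).det)⁻¹) • (ρ g * (J2 * b)) := by
        rw [mul_comm, mul_smul, ← h3, smul_smul, inv_mul_cancel₀ h2, one_smul]
      rw [Matrix.smul_mul, h4, Matrix.mul_smul, smul_comm]
  · rw [bil_symm hbs, smul_mulVec, bil_smul_left, J2_form hbs]
    have h1 : wdg x x = 0 := by
      rw [wdg]
      ring
    rw [h1, mul_zero, mul_zero]
  · have h1 : v⁻¹ * d * (v⁻¹ * d) * -b.det - 1 = -(d * d * b.det) * (v * v)⁻¹ - 1 := by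
      rw [mul_inv]
      ring
    rw [h1]
    exact hv2

end Pool.Agent.Work.MP_787500_nt.QF
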