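import Mathlib
import Pool.Agent.Work.MP_787500_nt.QF.LevC
import Pool.Agent.Work.MP_787500_nt.QS.KQ
import Pool.Agent.Work.MP_787500_nt.LX.X3_Lat
import Pool.Agent.Work.MP_787500_nt.LX.X5_Par

/-!
Restrictions of symplectic representations of the larger group: a self-dual lattice stable under the matrix `C`,
after adjoining the square root of a uniformizer.
-/

set_option autoImplicit false
set_option linter.unusedSectionVars false

namespace Pool.Agent.Work.MP_787500_nt.QF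

open Matrix
open Pool.Agent.Work.MP_787500_nt.GP
open Pool.Agent.Work.MP_787500_nt.PA (toE)
open Pool.Agent.Work.MP_787500_nt.LX
open Pool.Agent.Work.MP_787500_nt.KR (FSys SmallRep)
open Pool.Agent.Work.MP_787500_nt.QS (Two)

section ext

variable {G Γ : Type*} [Group G] [Group Γ] {e : G →* Γ} {c : Γ} {κ : G →* G} {R : Type*} [Monoid R]

open scoped Classical in
/-- the values of the extension -/
noncomputable def extF (e : G →* Γ) (c : Γ) (ρ : G →* R) (C : R) (σ : Γ) : R :=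
  if h : ∃ g, e g = σ then ρ h.choose
  else if h : ∃ g, e g * c = σ then ρ h.choose * C else 1

theorem extF_e (X : Two e c κ) (ρ : G →* R) (C : R) (g : G) : extF e c ρ C (e g) = ρ g := by
  have h : ∃ g', e g' = e g := ⟨g, rfl⟩
  have h1 : h.choose = g := X.inj h.choose_spec
  rw [extF, dif_pos h, h1]

theorem extF_ec (X : Two e c κ) (ρ : G →* R) (C : R) (g : G) :
    extF e c ρ C (e g * c) = ρ g * C := by
  have h0 : ¬∃ g', e g' = e g * c := fun ⟨g', h⟩ => X.out g g' h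
  have h : ∃ g', e g' * c = e g * c := ⟨g, rfl⟩
  have h1 : h.choose = g := X.inj (mul_right_cancel h.choose_spec)
  rw [extF, dif_neg h0, dif_pos h, h1]

theorem two_mul_e (X : Two e c κ) (g k : G) : e g * c * e k = e (g * κ k) * c := by
  rw [map_mul, X.kap]
  calc e g * c * e k = e g * c * e k * (c * c) := by rw [X.cc, mul_one]
    _ = e g * (c * e k * c) * c := by group

/-- the extension of `ρ` to the larger group, `c` acts by `C` -/
noncomputable def extR (X : Two e c κ) (ρ : G →* R) {C : R} (hCC : C * C = 1)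
    (hC : ∀ g, C * ρ (κ g) = ρ g * C) : Γ →* R where
  toFun := extF e c ρ C
  map_one' := by
    rw [← map_one e, extF_e X, map_one]
  map_mul' σ τ := by
    rcases X.cases σ with ⟨g, rfl⟩ | ⟨g, rfl⟩ <;> rcases X.cases τ with ⟨k, rfl⟩ | ⟨k, rfl⟩
    · rw [← map_mul, extF_e X, extF_e X, extF_e X, map_mul]
    · rw [← mul_assoc, ← map_mul, extF_ec X, extF_e X, extF_ec X, map_mul, mul_assoc]
    · have h1 := hC (κ k)
      rw [X.kk] at h1
      rw [two_mul_e X, extF_ec X, extF_ec X, extF_e X, map_mul, mul_assoc, mul_assoc, h1]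
    · have h1 := hC (κ k)
      rw [X.kk] at h1
      rw [← mul_assoc, two_mul_e X, mul_assoc, X.cc, mul_one, extF_e X, extF_ec X, extF_ec X,
        map_mul, mul_assoc, ← mul_assoc C, h1, mul_assoc (ρ (κ k)), hCC, mul_one]

/-- the conjugation by `c` -/
def cjH (X : Two e c κ) : Γ →* Γ where
  toFun σ := c * σ * c
  map_one' := by rw [mul_one, X.cc]
  map_mul' σ τ := by
    calc c * (σ * τ) * c = c * σ * (1 : Γ) * τ * c := by group
      _ = c * σ * (c * c) * τ * c := by rw [X.cc]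
      _ = c * σ * c * (c * τ * c) := by group

end ext

variable {G Γ : Type*} [Group G] [Group Γ] {e : G →* Γ} {c : Γ} {κ : G →* G} {S : FSys G}
  {Sq : FSys Γ} {χ : G → ℤ_[2]} {χq : Γ → ℤ_[2]}
  {E E' : Type*} [NormedField E] [NormedAlgebra ℚ_[2] E] [FiniteDimensional ℚ_[2] E]
  [NormedField E'] [NormedAlgebra ℚ_[2] E'] [FiniteDimensional ℚ_[2] E'] {n : ℕ}
  {ρ : G →* Matrix (Fin n) (Fin n) E} {b C : Matrix (Fin n) (Fin n) E}

/-- the form `b (x, C y)` is alternating -/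
theorem alt_bil {b C : Matrix (Fin n) (Fin n) E'} (h : (b * C)ᵀ = -(b * C)) (x : Fin n → E') :
    bil b x (C *ᵥ x) = 0 := by
  have h1 : bil b x (C *ᵥ x) = x ⬝ᵥ ((b * C) *ᵥ x) := by rw [bil, mulVec_mulVec]
  have h2 : x ⬝ᵥ ((b * C) *ᵥ x) = -(x ⬝ᵥ ((b * C) *ᵥ x)) := by
    conv_lhs => rw [Matrix.dotProduct_mulVec, ← Matrix.mulVec_transpose, h, neg_mulVec,
      dotProduct_comm]
    rw [dotProduct_neg]
  have hchar : CharZero E' := charZero_of_injective_algebraMap (algebraMap ℚ_[2] E').injective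
  rw [h1]
  exact self_eq_neg.1 h2

/-- THE LATTICE STABLE UNDER `C`. -/
theorem exists_lat_C (X : Two e c κ)
    (up : ∀ W, S.mem W → ∃ W', Sq.mem W' ∧ ∀ σ ∈ W', ∃ g ∈ W, e g = σ)
    (hχ : ∀ g, χq (e g) = χ g) (hc : χq c = -1) (hm : ∀ σ τ, χq (σ * τ) = χq σ * χq τ)
    (hρ : SmallRep S (fun g => ρ g)) (hb : b.det ≠ 0) (hbs : bᵀ = b)
    (hd : ∀ g, (ρ g)ᵀ * b * ρ (κ g) = toE E (χ g) • b)
    (hCC : C * C = 1) (hC : ∀ g, C * ρ (κ g) = ρ g * C) (hbC : (b * C)ᵀ = -(b * C))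
    {ι : E →ₐ[ℚ_[2]] E'} {m : E'} {l : OE E} (hl0 : (l : E) ≠ 0) (hl1 : ‖(l : E)‖ < 1)
    (hlm : ∀ x : E, ‖x‖ < 1 → ‖x‖ ≤ ‖(l : E)‖) (h : SqrtExt ι (l : E) m) :
    ∃ T' : Submodule (OE E') (Fin n → E'), (∀ g, ∀ x ∈ T', mapRep ι ρ g *ᵥ x ∈ T') ∧
      (∀ x, x ∈ T' ↔ ∀ y ∈ T', ‖bil (b.map ι) x y‖ ≤ 1) ∧ (∃ R : ℝ, ∀ x ∈ T', ‖x‖ ≤ R) ∧
      (∃ r : ℝ, 0 < r ∧ ∀ x : Fin n → E', ‖x‖ < r → x ∈ T') ∧
      MatC (b.map ι) T' κ (fun g => mapRep ι ρ g) (C.map ι) := by
  have hd' : ∀ (g : G) (x y : Fin n → E),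
      bil b (ρ g *ᵥ x) (ρ (κ g) *ᵥ y) = toE E (χ g) * bil b x y := by
    intro g x y
    unfold bil
    rw [← vecMul_transpose, ← dotProduct_mulVec, mulVec_mulVec, mulVec_mulVec, hd, smul_mulVec,
      dotProduct_smul, smul_eq_mul]
  have halt := alt_bil hbC
  have hpol : ∀ x y : Fin n → E, bil b x (C *ᵥ y) = -bil b (C *ᵥ x) y := by
    intro x y
    have h1 := halt (x + y)
    rw [mulVec_add, bil_add_left, bil_add_right, bil_add_right, halt, halt, zero_add,
      add_zero] at h1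
    rw [bil_symm hbs (C *ᵥ x) y]
    exact eq_neg_of_add_eq_zero_left h1
  have hCb : ∀ x y : Fin n → E, bil b (C *ᵥ x) (C *ᵥ y) = -bil b x y := by
    intro x y
    rw [hpol, mulVec_mulVec, hCC, one_mulVec]
  have hsm : SmallRep Sq (fun σ => extR X ρ hCC hC σ) := by
    refine ⟨map_one _, map_mul _, fun ε hε => ?_⟩
    obtain ⟨W, hW, h1⟩ := hρ.sm ε hε
    obtain ⟨W', hW', h2⟩ := up W hW
    refine ⟨W', hW', fun σ hσ x => ?_⟩
    obtain ⟨g, hg, rfl⟩ := h2 σ hσ
    have h3 : extR X ρ hCC hC (e g) = ρ g := extF_e X ρ C g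
    rw [h3]
    exact h1 g hg x
  have hdq : ∀ (σ : Γ) (x y : Fin n → E), bil b (extR X ρ hCC hC σ *ᵥ x)
      (extR X ρ hCC hC (cjH X σ) *ᵥ y) = toE E (χq σ) * bil b x y := by
    intro σ x y
    rcases X.cases σ with ⟨g, rfl⟩ | ⟨g, rfl⟩
    · have h1 : cjH X (e g) = e (κ g) := (X.kap g).symm
      have h2 : extR X ρ hCC hC (e g) = ρ g := extF_e X ρ C g
      have h3 : extR X ρ hCC hC (e (κ g)) = ρ (κ g) := extF_e X ρ C (κ g)
      rw [h1, h2, h3, hd', hχ]
    · have h1 : cjH X (e g * c) = e (κ g) * c := by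
        show c * (e g * c) * c = _
        rw [X.kap]
        group
      have h2 : extR X ρ hCC hC (e g * c) = ρ g * C := extF_ec X ρ C g
      have h3 : extR X ρ hCC hC (e (κ g) * c) = ρ (κ g) * C := extF_ec X ρ C (κ g)
      have h4 : toE E (χ g * -1) = -toE E (χ g) := by
        rw [mul_neg_one]
        exact map_neg ((algebraMap ℚ_[2] E).comp PadicInt.Coe.ringHom) (χ g)
      rw [h1, h2, h3, ← mulVec_mulVec, ← mulVec_mulVec, hd', hCb, hm, hχ, hc, h4]
      ring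
  obtain ⟨T', h1, h2, h3, h4⟩ := exists_lat_sqrt hsm hb hbs hdq hl0 hl1 hlm h
  have hst : ∀ g, ∀ x ∈ T', mapRep ι ρ g *ᵥ x ∈ T' := by
    intro g x hx
    have h5 := h1 (e g) x hx
    rw [mapRep_apply] at h5 ⊢
    have h6 : extR X ρ hCC hC (e g) = ρ g := extF_e X ρ C g
    rwa [h6] at h5
  refine ⟨T', hst, h2, h3, h4, fun x hx => ?_, ⟨1, by simp, ?_⟩, fun g => ⟨1, by simp, ?_⟩, ?_⟩
  · have h5 := h1 (e 1 * c) x hx
    rw [mapRep_apply] at h5
    have h6 : extR X ρ hCC hC (e 1 * c) = ρ 1 * C := extF_ec X ρ C 1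
    rwa [h6, map_one, one_mul] at h5
  · have h5 := congrArg (fun A : Matrix (Fin n) (Fin n) E => A.map ι) hCC
    simp only [Matrix.map_mul] at h5
    rw [h5, one_smul]
    exact Matrix.map_one _ (map_zero _) (map_one _)
  · have h5 := congrArg (fun A : Matrix (Fin n) (Fin n) E => A.map ι) (hC g)
    simp only [Matrix.map_mul] at h5
    rw [mapRep_apply, mapRep_apply, h5, one_smul]
  · refine alt_bil ?_
    rw [← Matrix.map_mul, ← Matrix.transpose_map, hbC]
    ext i j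
    exact map_neg ι _

end Pool.Agent.Work.MP_787500_nt.QF
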